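import Pool.Agent.Lib.MP_634dc6_al.Opr
import Pool.Agent.Lib.MP_634dc6_al.Expn

/-!
Indices and orbits.
-/

namespace Pool.Agent.Lib.MP_634dc6_al

variable {G : Type} [Group G] [Finite G]

/-- The normaliser of a subgroup. -/
abbrev nz (Y : Subgroup G) : Subgroup G := Subgroup.normalizer (Y : Set G)

omit [Finite G] in
theorem mem_nz {Y : Subgroup G} {a : G} : a ∈ nz Y ↔ cj a Y = Y :=
  Subgroup.mem_normalizer_iff_map_conj_eq

omit [Finite G] in
theorem cm_le_nz (X Y : Subgroup G) : cm X Y ≤ nz Y := fun _ ha =>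
  Subgroup.mem_normalizer_iff.2 ha.1

omit [Finite G] in
theorem Inva.le_nz {H W : Subgroup G} (h : Inva (fun _ : Unit => H) W) : H ≤ nz W := by
  intro a ha
  refine Subgroup.mem_normalizer_iff.2 fun w => ⟨fun hw => h () a ha w hw, fun hw => ?_⟩
  have h1 := h () a⁻¹ (H.inv_mem ha) _ hw
  rwa [show a⁻¹ * (a * w * a⁻¹) * a⁻¹⁻¹ = w by group] at h1

theorem relIndex_le_mul (H : Subgroup G) {K L : Subgroup G} (h : K ≤ L) :
    H.relIndex L ≤ H.relIndex K * K.relIndex L := by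
  have h1 := Subgroup.relIndex_inf_mul_relIndex H K L
  rw [inf_eq_left.2 h] at h1
  rw [h1]
  exact Subgroup.relIndex_le_of_le_left inf_le_left Subgroup.FiniteIndex.index_ne_zero

omit [Finite G] in
theorem ncard_conj_eq (S : Subgroup G) (w : G) :
    {b | ∃ a ∈ S, b = a * w * a⁻¹}.ncard = (Subgroup.centralizer {w}).relIndex S := by
  have key : ∀ a b : S, (a : G) * w * (a : G)⁻¹ = b * w * (b : G)⁻¹ ↔
      a⁻¹ * b ∈ (Subgroup.centralizer {w}).subgroupOf S := fun a b => by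
    rw [Subgroup.mem_subgroupOf, Subgroup.mem_centralizer_singleton_iff, Subgroup.coe_mul,
      Subgroup.coe_inv]
    constructor
    · intro h
      calc (a : G)⁻¹ * b * w = (a : G)⁻¹ * (b * w * (b : G)⁻¹) * b := by group
        _ = w * ((a : G)⁻¹ * b) := by rw [← h]; group
    · intro h
      calc (a : G) * w * (a : G)⁻¹ = a * (w * ((a : G)⁻¹ * b)) * (b : G)⁻¹ := by group
        _ = b * w * (b : G)⁻¹ := by rw [← h]; group
  let f : S ⧸ (Subgroup.centralizer {w}).subgroupOf S → G :=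
    fun q => (q.out : S) * w * ((q.out : S) : G)⁻¹
  have hf : Function.Injective f := fun q q' h => by
    rw [← q.out_eq', ← q'.out_eq']
    exact QuotientGroup.eq.2 ((key _ _).1 h)
  have h1 : {b | ∃ a ∈ S, b = a * w * a⁻¹} = Set.range f := by
    ext b
    refine ⟨fun ⟨a, ha, e⟩ => ⟨QuotientGroup.mk ⟨a, ha⟩, ?_⟩, fun ⟨q, e⟩ => ⟨_, q.out.2, e.symm⟩⟩
    rw [e]
    exact (key _ ⟨a, ha⟩).2 (QuotientGroup.eq.1 (QuotientGroup.out_eq' _))
  rw [h1, ← Set.image_univ, Set.ncard_image_of_injective _ hf, Set.ncard_univ]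
  rfl

omit [Finite G] in
theorem relIndex_cj (g : G) (Y B : Subgroup G) [B.Normal] :
    (cj g Y).relIndex B = Y.relIndex B := by
  have h := Subgroup.relIndex_map_map_of_injective Y B (f := (MulAut.conj g).toMonoidHom)
    (MulAut.conj g).injective
  rwa [show B.map (MulAut.conj g).toMonoidHom = B from cj_normal g B] at h

theorem core_idx {Y S : Subgroup G} (hS : S ≤ nz Y) (B : Subgroup G) [B.Normal] :
    (⨅ g : G, cj g Y).relIndex B ≤ Y.relIndex B ^ S.index := by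
  have := Fintype.ofFinite (G ⧸ S)
  have h1 : (⨅ q : G ⧸ S, cj q.out Y) ≤ ⨅ g : G, cj g Y := le_iInf fun g => by
    refine (iInf_le _ (QuotientGroup.mk g)).trans (le_of_eq ?_)
    have h2 : g⁻¹ * (QuotientGroup.mk g : G ⧸ S).out ∈ S :=
      QuotientGroup.eq.1 (QuotientGroup.out_eq' _).symm
    rw [← mul_inv_cancel_left g (QuotientGroup.mk g : G ⧸ S).out, cj_mul, mem_nz.1 (hS h2)]
  refine (Subgroup.relIndex_le_of_le_left h1 Subgroup.FiniteIndex.index_ne_zero).trans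
    ((Subgroup.relIndex_iInf_le _).trans (le_of_eq ?_))
  simp only [relIndex_cj, Finset.prod_const, Finset.card_univ]
  rw [← Nat.card_eq_fintype_card]
  rfl

theorem not_dvd_relIndex {p : ℕ} (hp : p.Prime) {N X : Subgroup G}
    (h : ∀ x ∈ X, PE p x → x ∈ N) : ¬ p ∣ N.relIndex X := by
  have := Fact.mk hp
  obtain ⟨P⟩ : Nonempty (Sylow p X) := inferInstance
  have h1 : (P : Subgroup X) ≤ N.subgroupOf X := fun x hx =>
    h x x.2 ((PE.of_mem P.isPGroup' hx).map X.subtype)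
  exact fun h2 => P.not_dvd_index (h2.trans (Subgroup.index_dvd_of_le h1))

theorem parts {U : Subgroup G} {e : ℕ} {g : G}
    (h : ∀ s : ℕ, s.Prime → ∀ j : ℕ, PE s (g ^ j) → (g ^ j) ^ e ∈ U) : g ^ e ∈ U := by
  induction hn : orderOf g using Nat.strong_induction_on generalizing g with
  | _ n ih =>
  by_cases h1 : orderOf g = 1
  · rw [orderOf_eq_one_iff.1 h1, one_pow]
    exact U.one_mem
  have hq := Nat.minFac_prime h1
  obtain ⟨y, z, hd⟩ := dec_exists hq g
  obtain ⟨⟨i, hi⟩, j, hj⟩ := hd.mem_pow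
  have h2 : orderOf y < n := by
    rw [← hn]
    refine lt_of_le_of_ne (Nat.le_of_dvd (orderOf_pos g) (hi ▸ orderOf_pow_dvd i)) fun e => ?_
    have h3 : (orderOf y).Coprime (orderOf g).minFac := hd.2.2.1
    rw [e] at h3
    exact hq.one_lt.ne' (Nat.Coprime.eq_one_of_dvd h3.symm (Nat.minFac_dvd _))
  have h3 : y ^ e ∈ U := ih _ h2 (fun s hs k hk => by
    rw [hi, ← pow_mul g i k] at hk ⊢
    exact h s hs _ hk) rfl
  have h4 : z ^ e ∈ U := hj ▸ h _ hq j (hj ▸ hd.2.2.2)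
  rw [hd.1, hd.2.1.mul_pow]
  exact U.mul_mem h3 h4

omit [Finite G] in
theorem perf_le_of_sol {D : Subgroup G} (hD : Group.IsSolvable D) {C L : Subgroup G} [C.Normal]
    (hL : ⁅L, L⁆ = L) (h : L ≤ D ⊔ C) : L ≤ C := by
  rw [← map_mk_eq_bot]
  by_contra h0
  exact (comm_lt_of_solv (Group.isSolvable_of_surjective
    ((QuotientGroup.mk' C).subgroupMap_surjective D)) (perf_le_sup.1 h) h0).ne (map_perf _ hL)

theorem exp_all (M : ℕ) : ∃ c : ℕ, ∀ (G : Type) [Group G] [Finite G] (U : Subgroup G), Sm M G →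
    ∃ e : ℕ, e ≠ 0 ∧ e ≤ U.index ^ c ∧ ∀ g : G, g ^ e ∈ U := by
  refine ⟨8 * M + 44 + M.factorial, fun G _ _ U hG => ?_⟩
  obtain ⟨e, h0, h1, h2⟩ := exp_index hG U
  have hn : U.index ≠ 0 := U.index_ne_zero_of_finite
  refine ⟨e * M.factorial ^ Nat.log 2 U.index,
    mul_ne_zero h0.ne' (pow_ne_zero _ M.factorial_ne_zero), ?_, fun g => parts fun s hs j hj => ?_⟩
  · rw [pow_add]
    refine Nat.mul_le_mul h1 (le_trans (Nat.pow_le_pow_left Nat.lt_two_pow_self.le _) ?_)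
    rw [← pow_mul, mul_comm, pow_mul]
    exact Nat.pow_le_pow_left (Nat.pow_log_le_self 2 hn) _
  · generalize g ^ j = x at hj
    rcases lt_or_ge M s with h3 | h3
    · rw [pow_mul]
      exact U.pow_mem (h2 x ⟨s, hs, h3, hj⟩) _
    obtain ⟨k, h4, h5, h6⟩ := U.exists_pow_mem_of_index_ne_zero hn x
    obtain ⟨b, k', hk, rfl⟩ := Nat.exists_eq_pow_mul_and_not_dvd h4.ne' s hs.ne_one
    have h7 : x ^ s ^ b ∈ U := (hj.pow _).mem_of_pow
      ((Nat.Prime.coprime_iff_not_dvd hs).2 hk).symm (by rwa [← pow_mul])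
    have h8 : b ≤ Nat.log 2 U.index := Nat.le_log_of_pow_le one_lt_two
      ((Nat.pow_le_pow_left hs.two_le b).trans (le_trans
        (Nat.le_mul_of_pos_right _ (Nat.pos_of_ne_zero fun h9 : k' = 0 => hk (h9 ▸ dvd_zero s))) h5))
    obtain ⟨c, hc⟩ : s ^ b ∣ e * M.factorial ^ Nat.log 2 U.index :=
      Dvd.dvd.mul_left ((pow_dvd_pow s h8).trans
        (pow_dvd_pow_of_dvd (Nat.dvd_factorial hs.pos h3) _)) e
    rw [hc, pow_mul]
    exact U.pow_mem h7 c

end Pool.Agent.Lib.MP_634dc6_al
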