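import Pool.Agent.Lib.MP_634dc6_al.S.SFld
import Pool.Agent.Lib.MP_634dc6_al.S.SIdx

/-!
The field lemmas inside one group.
-/

namespace Pool.Agent.Lib.MP_634dc6_al

variable {G : Type} [Group G] [Finite G] {H W : Subgroup G}

/-- `a` normalises `W` and its action on `W` commutes with the action of `H`. -/
def Cn (H W : Subgroup G) (a : G) : Prop := a ∈ nz W ∧ ∀ h ∈ H, a * h * a⁻¹ * h⁻¹ ∈ cz W

/-- `W` as a module for its normaliser. -/
structure AM (W : Subgroup G) {A : Type} [AddCommGroup A] (e : A → G)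
    (σ : nz W →* Module.End ℤ A) : Prop where
  inj : Function.Injective e
  mem : ∀ w, w ∈ W ↔ ∃ a, e a = w
  card : Nat.card A = Nat.card W
  app : ∀ (g : nz W) (a : A), e (σ g a) = g * e a * (g : G)⁻¹
  ker : ∀ g : nz W, σ g = 1 ↔ (g : G) ∈ cz W
  com : ∀ a b : nz W, σ a * σ b = σ b * σ a ↔ (a : G) * b * (a : G)⁻¹ * (b : G)⁻¹ ∈ cz W
  irr : ∀ H : Subgroup G, MinI (fun _ : Unit => H) W → ∀ U : Submodule ℤ A,
    (∀ s ∈ σ '' {g | (g : G) ∈ H}, ∀ u ∈ U, s u ∈ U) → U = ⊥ ∨ U = ⊤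

theorem amb_mod (hab : ⁅W, W⁆ = ⊥) (hne : W ≠ ⊥) :
    ∃ (A : Type) (_ : AddCommGroup A) (_ : Finite A) (_ : Nontrivial A) (e : A → G)
      (σ : nz W →* Module.End ℤ A), AM W e σ := by
  obtain ⟨A, _, e, E, hinj, hrange, hadd, hE⟩ :=
    moda_exists W fun a ha b hb => (comm_eq_bot_iff.1 hab a ha b hb).eq
  have heW : ∀ w, w ∈ W ↔ ∃ a, e a = w := fun w => by
    rw [← SetLike.mem_coe, ← hrange]
    rfl
  have he0 : e 0 = 1 := mul_eq_left.1 (show e 0 * e 0 = e 0 by rw [← hadd, add_zero])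
  have heneg : ∀ a, e (-a) = (e a)⁻¹ := fun a =>
    eq_inv_of_mul_eq_one_right (by rw [← hadd, add_neg_cancel, he0])
  have h1 : Nontrivial A := by
    obtain ⟨w, hw, hw1⟩ := W.bot_or_exists_ne_one.resolve_left hne
    obtain ⟨a, rfl⟩ := (heW w).1 hw
    exact ⟨a, 0, fun h0 => hw1 (by rw [h0, he0])⟩
  have hE' : ∀ (g : nz W) a, e (E g a) = g * e a * (g : G)⁻¹ := fun g =>
    hE g fun w hw => (Subgroup.mem_normalizer_iff.1 g.2 w).1 hw
  let σ : nz W →* Module.End ℤ A :=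
    { toFun := fun g => E g
      map_one' := LinearMap.ext fun a => hinj (by rw [hE']; simp)
      map_mul' := fun g h => LinearMap.ext fun a => hinj (by
        rw [Module.End.mul_apply, hE', hE', hE']
        simp only [Subgroup.coe_mul, mul_inv_rev, mul_assoc]) }
  have hker : ∀ g : nz W, σ g = 1 ↔ (g : G) ∈ cz W := fun g => by
    rw [Subgroup.mem_centralizer_iff]
    constructor
    · intro h w hw
      obtain ⟨a, rfl⟩ := (heW w).1 hw
      have h2 : e a = g * e a * (g : G)⁻¹ := (congrArg (fun f => e (f a)) h).symm.trans (hE' g a)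
      exact eq_mul_inv_iff_mul_eq.1 h2
    · intro h
      refine LinearMap.ext fun a => hinj ((hE' g a).trans ?_)
      rw [← h _ ((heW _).2 ⟨a, rfl⟩), mul_inv_cancel_right]
      rfl
  refine ⟨A, inferInstance, Finite.of_injective e hinj, h1, e, σ, hinj, heW, ?_, hE', hker,
    fun a b => ?_, fun H hW U hU => ?_⟩
  · rw [← Nat.card_range_of_injective hinj, hrange]
    rfl
  · refine Iff.trans ?_ (hker (a * b * a⁻¹ * b⁻¹))
    rw [← map_mul, ← map_mul, mul_assoc (a * b), ← mul_inv_rev]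
    refine ⟨fun h => by rw [map_mul, h, ← map_mul, mul_inv_cancel, map_one], fun h => ?_⟩
    rw [← one_mul (σ (b * a)), ← h, ← map_mul, inv_mul_cancel_right]
  · let U' : Subgroup G :=
      { carrier := e '' U
        mul_mem' := by
          rintro _ _ ⟨a, ha, rfl⟩ ⟨b, hb, rfl⟩
          exact ⟨a + b, U.add_mem ha hb, hadd a b⟩
        one_mem' := ⟨0, U.zero_mem, he0⟩
        inv_mem' := by
          rintro _ ⟨a, ha, rfl⟩
          exact ⟨-a, U.neg_mem ha, heneg a⟩ }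
    have hinv : Inva (fun _ : Unit => H) U' := by
      rintro _ l hl _ ⟨a, ha, rfl⟩
      exact ⟨_, hU _ ⟨⟨l, hW.1.le_nz hl⟩, hl, rfl⟩ a ha, hE' ⟨l, hW.1.le_nz hl⟩ a⟩
    refine (hW.2.2 U' hinv (by
      rintro _ ⟨a, -, rfl⟩
      exact (heW _).2 ⟨a, rfl⟩)).imp (fun h => eq_bot_iff.2 fun a ha => ?_)
        fun h => eq_top_iff.2 fun a _ => ?_
    · have h2 : e a ∈ U' := ⟨a, ha, rfl⟩
      rw [h, Subgroup.mem_bot, ← he0] at h2
      exact hinj h2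
    · have h2 : e a ∈ U' := h ▸ (heW _).2 ⟨a, rfl⟩
      obtain ⟨b, hb, h3⟩ := h2
      exact hinj h3 ▸ hb

theorem amb_sq (hab : ⁅W, W⁆ = ⊥) (hW : MinI (fun _ : Unit => H) W) (hn : ¬ ⁅H, H⁆ ≤ cz W) :
    ∃ q : ℕ, q ^ 2 ≤ Nat.card W ∧ ∀ S : Subgroup G, (∀ a ∈ S, Cn H W a) → ∀ w ∈ W,
      (Subgroup.centralizer {w}).relIndex S ≤ q := by
  obtain ⟨A, _, _, _, e, σ, h⟩ := amb_mod hab hW.2.1
  have : Finite (Module.End ℤ A) := DFunLike.finite _
  obtain ⟨q, x, h1, h2, h3, h4⟩ := mod_field (fun _ : Unit => σ '' {g | (g : G) ∈ H})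
    (fun i j hij => absurd rfl hij)
    (fun _ => by
      by_contra hc
      refine hn (comm_le_iff.2 fun a ha b hb =>
        (h.com ⟨a, hW.1.le_nz ha⟩ ⟨b, hW.1.le_nz hb⟩).1 (by_contra fun h0 => ?_))
      exact hc ⟨_, ⟨⟨a, _⟩, ha, rfl⟩, _, ⟨⟨b, _⟩, hb, rfl⟩, h0⟩)
    fun U hU => h.irr H hW U (hU ())
  refine ⟨q, ?_, fun S hS w hw => ?_⟩
  · rw [← h.card, h2]
    rw [Nat.card_unique, pow_one] at h3
    refine Nat.pow_le_pow_right (by omega) (by_contra fun h5 => ?_)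
    have h6 : x ^ 2 ≤ 1 ^ 2 := Nat.pow_le_pow_left (by omega) 2
    omega
  · obtain ⟨a, rfl⟩ := (h.mem w).1 hw
    rw [← ncard_conj_eq]
    refine le_trans (Set.ncard_le_ncard ?_ (Set.toFinite _))
      ((Set.ncard_image_le (f := fun f : Module.End ℤ A => e (f a)) (Set.toFinite _)).trans h4)
    rintro _ ⟨s, hs, rfl⟩
    refine ⟨σ ⟨s, (hS s hs).1⟩, ?_, h.app _ _⟩
    rintro _ _ ⟨g, hg, rfl⟩
    exact (h.com _ _).2 ((hS s hs).2 g hg)

theorem amb_dim {ι : Type} [Finite ι] {J : Subgroup G} {Λ : ι → Subgroup G} (hab : ⁅W, W⁆ = ⊥)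
    (hW : MinI (fun _ : Unit => J ⊔ jn Λ Set.univ) W) (hp : ∀ i, ⁅Λ i, Λ i⁆ = Λ i)
    (hc : ∀ i j, i ≠ j → ⁅Λ i, Λ j⁆ ≤ cz W) (hJ : ∀ i, ⁅J, Λ i⁆ ≤ cz W) :
    2 ^ {i | ¬ Λ i ≤ cz W}.ncard ≤ Nat.log 2 (Nat.card W) ^ 2 := by
  classical
  obtain ⟨A, _, _, _, e, σ, h⟩ := amb_mod hab hW.2.1
  rcases {i | ¬ Λ i ≤ cz W}.eq_empty_or_nonempty with h0 | ⟨i₀, h0⟩
  · rw [h0, Set.ncard_empty, pow_zero, ← h.card]
    exact Nat.one_le_pow _ _ (Nat.log_pos one_lt_two Finite.one_lt_card)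
  have hN := hW.1.le_nz
  have hL : ∀ i, Λ i ≤ nz W := fun i => (le_jn (Set.mem_univ i)).trans (le_sup_right.trans hN)
  obtain ⟨q, x, h1, h2, h3, -⟩ := mod_field
    (fun i : {i | ¬ Λ i ≤ cz W} => σ '' {g | (g : G) ∈ Λ i ∨ (i.1 = i₀ ∧ (g : G) ∈ J)})
    (by
      rintro i j hij _ ⟨a, ha, rfl⟩ _ ⟨b, hb, rfl⟩
      rcases ha with ha | ⟨e1, ha⟩ <;> rcases hb with hb | ⟨e2, hb⟩
      · exact (h.com a b).2 (comm_le_iff.1 (hc i j fun e => hij (Subtype.ext e)) a ha b hb)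
      · exact ((h.com b a).2 (comm_le_iff.1 (hJ i) b hb a ha)).symm
      · exact (h.com a b).2 (comm_le_iff.1 (hJ j) a ha b hb)
      · exact absurd (Subtype.ext (e1.trans e2.symm)) hij)
    (fun i => by
      by_contra hcon
      refine i.2 ((hp i).ge.trans (comm_le_iff.2 fun a ha b hb =>
        (h.com ⟨a, hL i ha⟩ ⟨b, hL i hb⟩).1 (by_contra fun h0 => ?_)))
      exact hcon ⟨_, ⟨⟨a, _⟩, Or.inl ha, rfl⟩, _, ⟨⟨b, _⟩, Or.inl hb, rfl⟩, h0⟩)
    (fun U hU => h.irr _ hW U (by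
      let St : Subgroup (nz W) :=
        { carrier := {g | ∀ u ∈ U, σ g u ∈ U}
          one_mem' := fun u hu => by rwa [map_one]
          mul_mem' := fun {a b} ha hb u hu => by
            rw [map_mul]
            exact ha _ (hb u hu)
          inv_mem' := fun {a} ha u hu => by
            have h5 : ∀ k : ℕ, σ (a ^ k) u ∈ U := fun k => by
              induction k with
              | zero => rwa [pow_zero, map_one]
              | succ k ih =>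
                rw [pow_succ', map_mul]
                exact ha _ ih
            have h6 : a⁻¹ = a ^ (orderOf a - 1) := by
              rw [inv_eq_iff_mul_eq_one, ← pow_succ', Nat.sub_add_cancel (orderOf_pos a),
                pow_orderOf_eq_one]
            exact h6 ▸ h5 _ }
      have h5 : J ⊔ jn Λ Set.univ ≤ St.map (nz W).subtype := by
        refine sup_le (fun a ha => ⟨⟨a, hN (Subgroup.mem_sup_left ha)⟩, fun u hu => ?_, rfl⟩)
          (jn_le fun i _ a ha => ⟨⟨a, hL i ha⟩, fun u hu => ?_, rfl⟩)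
        · exact hU ⟨i₀, h0⟩ _ ⟨_, Or.inr ⟨rfl, ha⟩, rfl⟩ u hu
        · by_cases hi : Λ i ≤ cz W
          · rwa [(h.ker _).2 (hi ha)]
          · exact hU ⟨i, hi⟩ _ ⟨_, Or.inl ha, rfl⟩ u hu
      rintro _ ⟨g, hg, rfl⟩ u hu
      obtain ⟨g', hg', e'⟩ := h5 hg
      exact (Subtype.ext e' : g' = g) ▸ hg' u hu))
  rw [Nat.card_coe_set_eq] at h3
  refine h3.trans (Nat.pow_le_pow_left (Nat.le_log_of_pow_le one_lt_two ?_) 2)
  rw [← h.card, h2]
  exact Nat.pow_le_pow_left h1 x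

theorem amb_gal (hab : ⁅W, W⁆ = ⊥) (hW : MinI (fun _ : Unit => H) W) [hH : H.Normal]
    {S : Subgroup G} (hS : S ≤ nz W) : ∃ S₀ ≤ S, S₀.relIndex S ≤ Nat.log 2 (Nat.card W) ∧
      ∀ a ∈ S₀, ∀ z, Cn H W z → a * z * a⁻¹ * z⁻¹ ∈ cz W := by
  obtain ⟨A, _, _, _, e, σ, h⟩ := amb_mod hab hW.2.1
  obtain ⟨Γ₀, h1, h2⟩ := fld_gal (h.irr H hW) (σ.comp (Subgroup.inclusion hS)) (by
    rintro γ _ ⟨g, hg, rfl⟩
    refine ⟨_, ⟨Subgroup.inclusion hS γ * g * (Subgroup.inclusion hS γ)⁻¹,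
      hH.conj_mem _ hg _, rfl⟩, ?_⟩
    rw [MonoidHom.comp_apply, ← map_mul, ← map_mul, inv_mul_cancel_right])
  refine ⟨Γ₀.map S.subtype, Subgroup.map_subtype_le _, Nat.le_log_of_pow_le one_lt_two ?_, ?_⟩
  · rw [Subgroup.relIndex, Subgroup.subgroupOf,
      Subgroup.comap_map_eq_self_of_injective S.subtype_injective, ← h.card]
    exact h1
  · rintro _ ⟨γ, hγ, rfl⟩ z hz
    refine (h.com (Subgroup.inclusion hS γ) ⟨z, hz.1⟩).1 (h2 γ hγ _ ?_)
    rintro _ ⟨g, hg, rfl⟩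
    exact (h.com _ _).2 (hz.2 g hg)

theorem amb_cent (hab : ⁅W, W⁆ = ⊥) (hW : MinI (fun _ : Unit => H) W) {X : Subgroup G}
    (hX : ∀ z ∈ X, Cn H W z) : (cz W).relIndex X ∣ Nat.card W - 1 ∧
      ∀ n : ℕ, n ≠ 0 → (∀ z ∈ X, z ^ n ∈ cz W) → (cz W).relIndex X ≤ n := by
  obtain ⟨A, _, _, _, e, σ, h⟩ := amb_mod hab hW.2.1
  have hS : X ≤ nz W := fun z hz => (hX z hz).1
  obtain ⟨h1, h2⟩ := fld_cent (h.irr H hW) (σ.comp (Subgroup.inclusion hS)) (by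
    rintro γ _ ⟨g, hg, rfl⟩
    exact (h.com _ _).2 ((hX γ γ.2).2 g hg))
  have hk : (σ.comp (Subgroup.inclusion hS)).ker = (cz W).subgroupOf X :=
    Subgroup.ext fun γ => h.ker _
  rw [hk, h.card] at h1
  rw [hk] at h2
  refine ⟨h1, fun n hn hz => h2 n hn fun γ => ?_⟩
  rw [← map_pow]
  exact (h.ker _).2 (hz γ γ.2)

end Pool.Agent.Lib.MP_634dc6_al
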