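import Pool.Agent.Lib.MP_634dc6_al.S.SIdx

/-!
The blocks that belong to the kernels of a normal subgroup.
-/

namespace Pool.Agent.Lib.MP_634dc6_al

variable {G : Type} [Group G] [Finite G] {V F W Y : Subgroup G}

/-- `W` is a minimal `F`-invariant subgroup of `V` whose conjugates generate `V`. -/
structure BD (V F W : Subgroup G) : Prop where
  nV : V.Normal
  nF : F.Normal
  ab : ⁅V, V⁆ = ⊥
  le : W ≤ V
  min : ∀ g : G, MinI (fun _ : Unit => F) (cj g W)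
  fa : ∀ x : G, (∀ g : G, x ∈ cz (cj g W)) → x ∈ cz V

theorem exists_bd (hV : MinNor V) (hab : ⁅V, V⁆ = ⊥) (F : Subgroup G) [F.Normal] :
    ∃ W, BD V F W := by
  obtain ⟨W, h1, h2, h3⟩ := exists_minI_cj hV F
  exact ⟨W, hV.1, inferInstance, hab, h1, h2, h3⟩

omit [Finite G] in
theorem BD.minI (h : BD V F W) : MinI (fun _ : Unit => F) W := by
  simpa only [cj_one] using h.min 1

omit [Finite G] in
theorem BD.abW (h : BD V F W) : ⁅W, W⁆ = ⊥ :=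
  le_bot_iff.1 ((Subgroup.commutator_mono h.le h.le).trans h.ab.le)

omit [Finite G] in
theorem BD.cj_ky (h : BD V F W) (g : G) : cj g (F ⊓ cz W) = F ⊓ cz (cj g W) := by
  have := h.nF
  exact lina_cj_inf g W

omit [Finite G] in
theorem BD.cj_le (h : BD V F W) (g : G) : cj g W ≤ V := by
  have := h.nV
  exact (cj_mono g h.le).trans (cj_normal g V).le

omit [Finite G] in
theorem BD.nz_le (h : BD V F W) : nz W ≤ nz (F ⊓ cz W) := fun a ha => by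
  rw [mem_nz, h.cj_ky, mem_nz.1 ha]

omit [Finite G] in
theorem BD.cj_bd (h : BD V F W) (a : G) : BD V F (cj a W) :=
  ⟨h.nV, h.nF, h.ab, h.cj_le a, fun g => cj_mul g a W ▸ h.min (g * a), fun x hx => h.fa x fun g => by
    have h1 := hx (g * a⁻¹)
    rwa [← cj_mul, inv_mul_cancel_right] at h1⟩

theorem BD.mem_nz (h : BD V F W) {w a : G} (hw : w ∈ W) (h1 : w ≠ 1) (ha : a * w * a⁻¹ ∈ W) :
    a ∈ nz W := by
  have := h.nF
  exact Pool.Agent.Lib.MP_634dc6_al.mem_nz.2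
    (moda_norm h.minI (fun g => ⟨1, fun _ => cj_normal g F⟩) hw h1 ha)

omit [Finite G] in
theorem blk_fix (hW : MinI (fun _ : Unit => F) W) (hY : F ≤ nz Y) (hn : ¬ Y ≤ cz W) :
    W ⊓ cz Y = ⊥ := by
  refine (hW.2.2 (W ⊓ cz Y) (fun _ f hf w hw => ⟨hW.1 () f hf w hw.1, ?_⟩) inf_le_left).resolve_right
    fun e => hn (Subgroup.le_centralizer_iff.1 (inf_eq_left.1 e))
  have h1 := conj_mem_cj f hw.2
  rwa [cj_centralizer_coe, mem_nz.1 (hY hf)] at h1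

theorem blk_key (hab : ⁅V, V⁆ = ⊥) (hYF : Y ≤ F) (hY : F ≤ nz Y) (𝒲 : Set (Subgroup G))
    (h : ∀ W ∈ 𝒲, W ≤ V ∧ MinI (fun _ : Unit => F) W ∧ ¬ Y ≤ cz W) : sSup 𝒲 ⊓ cz Y = ⊥ := by
  have hc := comm_eq_bot_iff.1 hab
  induction 𝒲, Set.toFinite 𝒲 using Set.Finite.induction_on with
  | empty => simp
  | @insert W 𝒲 _ _ ih =>
  have h1 := ih fun U hU => h U (Set.mem_insert_of_mem _ hU)
  obtain ⟨hWV, hW, hn⟩ := h W (Set.mem_insert _ _)
  have hUV : sSup 𝒲 ≤ V := sSup_le fun U hU => (h U (Set.mem_insert_of_mem _ hU)).1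
  have hU : Inva (fun _ : Unit => F) (sSup 𝒲) := fun _ f hf u hu => by
    have h2 : sSup 𝒲 ≤ cj f⁻¹ (sSup 𝒲) := sSup_le fun U hU x hx => mem_cj.2 (by
      rw [inv_inv]
      exact le_sSup hU ((h U (Set.mem_insert_of_mem _ hU)).2.1.1 () f hf x hx))
    have h3 := mem_cj.1 (h2 hu)
    rwa [inv_inv] at h3
  rw [sSup_insert]
  rcases hW.2.2 (W ⊓ sSup 𝒲) (fun i f hf x hx => ⟨hW.1 i f hf x hx.1, hU i f hf x hx.2⟩)
    inf_le_left with h2 | h2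
  · refine eq_bot_iff.2 fun x hx => ?_
    have h3 : W ≤ Subgroup.normalizer ((sSup 𝒲 : Subgroup G) : Set G) := fun w hw =>
      Subgroup.mem_normalizer_iff.2 fun u => by
        refine ⟨fun hu => ?_, fun hu => ?_⟩
        · rwa [(hc w (hWV hw) u (hUV hu)).eq, mul_inv_cancel_right]
        · have h4 := (hc w (hWV hw) _ (hUV hu)).eq
          rw [show w * u * w⁻¹ * w = w * u by group, mul_right_inj] at h4
          rwa [h4] at hu
    have h4 : x ∈ ((W ⊔ sSup 𝒲 : Subgroup G) : Set G) := hx.1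
    rw [Subgroup.coe_mul_of_left_le_normalizer_right W _ h3] at h4
    obtain ⟨w, hw, u, hu, rfl⟩ := h4
    have h5 : w ∈ W ⊓ cz Y := ⟨hw, Subgroup.mem_centralizer_iff.2 fun y hy => by
      have h6 : y * (w * u) = w * u * y := Subgroup.mem_centralizer_iff.1 hx.2 y hy
      have h7 : w⁻¹ * (y * w * y⁻¹) ∈ W ⊓ sSup 𝒲 := by
        refine ⟨W.mul_mem (W.inv_mem hw) (hW.1 () y (hYF hy) w hw), ?_⟩
        have e : w⁻¹ * (y * w * y⁻¹) = u * (y * u * y⁻¹)⁻¹ := by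
          calc w⁻¹ * (y * w * y⁻¹) = w⁻¹ * (y * (w * u)) * (u⁻¹ * y⁻¹) := by group
            _ = u * (y * u * y⁻¹)⁻¹ := by rw [h6]; group
        rw [e]
        exact Subgroup.mul_mem _ hu (Subgroup.inv_mem _ (hU () y (hYF hy) u hu))
      rw [h2, Subgroup.mem_bot, inv_mul_eq_one, eq_mul_inv_iff_mul_eq] at h7
      exact h7.symm⟩
    rw [blk_fix hW hY hn, Subgroup.mem_bot] at h5
    subst h5
    rw [← h1]
    exact ⟨by simpa using hu, hx.2⟩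
  · rw [sup_eq_right.2 (inf_eq_left.1 h2)]
    exact h1

/-- The join of the conjugates of `W` with a kernel other than `Y`. -/
def rst (F W Y : Subgroup G) : Subgroup G :=
  sSup {U | ∃ g : G, U = cj g W ∧ cj g (F ⊓ cz W) ≠ Y}

omit [Finite G] in
theorem le_rst {g : G} (h : cj g (F ⊓ cz W) ≠ Y) : cj g W ≤ rst F W Y := le_sSup ⟨g, rfl, h⟩

omit [Finite G] in
theorem conj_mem_rst (a : G) {x : G} (h : x ∈ rst F W Y) : a * x * a⁻¹ ∈ rst F W (cj a Y) := by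
  have h1 : rst F W Y ≤ cj a⁻¹ (rst F W (cj a Y)) := by
    refine sSup_le ?_
    rintro _ ⟨g, rfl, hg⟩ y hy
    rw [mem_cj, inv_inv]
    refine le_rst (g := a * g) (fun e => hg (cj_inj a (by rw [← cj_mul, e]))) ?_
    rw [cj_mul]
    exact conj_mem_cj a hy
  have h2 := mem_cj.1 (h1 h)
  rwa [inv_inv] at h2

theorem BD.eq_one (h : BD V F W) {g x : G} (h1 : x ∈ rst F W (cj g (F ⊓ cz W)))
    (h2 : x ∈ cz (cj g (F ⊓ cz W))) : x = 1 := by
  have h3 := blk_key (F := F) (Y := cj g (F ⊓ cz W)) h.ab (by rw [h.cj_ky]; exact inf_le_left)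
    (by rw [h.cj_ky]; exact (h.min g).1.le_nz.trans (h.cj_bd g).nz_le)
    {U | ∃ a : G, U = cj a W ∧ cj a (F ⊓ cz W) ≠ cj g (F ⊓ cz W)} (by
      rintro _ ⟨a, rfl, ha⟩
      refine ⟨h.cj_le a, h.min a, fun h4 => ha (Subgroup.eq_of_le_of_card_ge ?_ ?_).symm⟩
      · rw [h.cj_ky a]
        exact le_inf (by rw [h.cj_ky]; exact inf_le_left) h4
      · rw [lina_card_cj, lina_card_cj])
  exact Subgroup.mem_bot.1 (h3 ▸ Subgroup.mem_inf.2 ⟨h1, h2⟩)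

omit [Finite G] in
theorem BD.le_cz (h : BD V F W) (g : G) : cj g W ≤ cz (cj g (F ⊓ cz W)) := by
  rw [h.cj_ky]
  exact Subgroup.le_centralizer_iff.1 inf_le_right

theorem BD.index_lt (h : BD V F W) : (nz (F ⊓ cz W)).index < om (V : Set G) := by
  classical
  let 𝒴 : Set (Subgroup G) := Set.range fun g : G => cj g (F ⊓ cz W)
  have h1 : (nz (F ⊓ cz W)).index ≤ 𝒴.ncard := by
    rw [← Nat.card_coe_set_eq]
    refine Nat.card_le_card_of_injective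
      (fun q : G ⧸ nz (F ⊓ cz W) => (⟨_, q.out, rfl⟩ : 𝒴)) fun a b hab => ?_
    have h2 : cj a.out (F ⊓ cz W) = cj b.out (F ⊓ cz W) := congrArg Subtype.val hab
    rw [← a.out_eq', ← b.out_eq']
    refine QuotientGroup.eq.2 (Pool.Agent.Lib.MP_634dc6_al.mem_nz.2 ?_)
    rw [cj_mul, ← h2, ← cj_mul, inv_mul_cancel, cj_one]
  let s : G → Set (Subgroup G) := fun v => {Y | Y ∈ 𝒴 ∧ v ∉ rst F W Y}
  have h2 : ∀ a v : G, (s v).ncard ≤ (s (a * v * a⁻¹)).ncard := fun a v => by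
    refine Set.ncard_le_ncard_of_injOn (cj a) ?_ fun _ _ _ _ e => cj_inj a e
    rintro _ ⟨⟨g, rfl⟩, hv⟩
    refine ⟨⟨a * g, cj_mul _ _ _⟩, fun h3 => hv ?_⟩
    have h4 := conj_mem_rst a⁻¹ h3
    rwa [← cj_mul, inv_mul_cancel, cj_one, show a⁻¹ * (a * v * a⁻¹) * a⁻¹⁻¹ = v by group] at h4
  have h3 : ∀ J : Finset (Subgroup G), (J : Set (Subgroup G)) ⊆ 𝒴 → ∃ v ∈ V, s v = J := by
    intro J
    induction J using Finset.induction_on with
    | empty => exact fun _ => ⟨1, V.one_mem, by simp [s]⟩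
    | insert Y J hY ih =>
      intro hJ
      rw [Finset.coe_insert, Set.insert_subset_iff] at hJ
      obtain ⟨v, hv, e⟩ := ih hJ.2
      obtain ⟨g, rfl⟩ := hJ.1
      obtain ⟨w, hw, hw1⟩ := (cj g W).bot_or_exists_ne_one.resolve_left (h.min g).2.1
      refine ⟨v * w, V.mul_mem hv (h.cj_le g hw), ?_⟩
      ext Y
      rw [Finset.coe_insert, Set.mem_insert_iff, ← e]
      by_cases h4 : Y = cj g (F ⊓ cz W)
      · subst h4
        refine iff_of_true ⟨hJ.1, fun h5 => hw1 (h.eq_one ?_ (h.le_cz g hw))⟩ (Or.inl rfl)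
        refine (Subgroup.mul_mem_cancel_left _ (not_not.1 fun h6 => hY ?_)).1 h5
        rw [← Finset.mem_coe, ← e]
        exact ⟨hJ.1, h6⟩
      · rw [or_iff_right h4]
        exact and_congr_right fun _ => not_congr
          (Subgroup.mul_mem_cancel_right _ (le_rst (Ne.symm h4) hw))
  have h4 := ncard_le_om (fun v => (s v).ncard) (V : Set G) fun a _ b _ hab => by
    obtain ⟨c, rfl⟩ := isConj_iff.1 hab
    refine le_antisymm (h2 c a) ?_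
    have h5 := h2 c⁻¹ (c * a * c⁻¹)
    rwa [show c⁻¹ * (c * a * c⁻¹) * c⁻¹⁻¹ = a by group] at h5
  have h5 : (Set.Iio (𝒴.ncard + 1)).ncard = 𝒴.ncard + 1 := by simp
  refine lt_of_lt_of_le (Nat.lt_succ_of_le h1) (le_trans (h5.ge.trans ?_) h4)
  refine Set.ncard_le_ncard (fun k hk => ?_) ((Set.toFinite _).image _)
  obtain ⟨J, hJ, e⟩ := Finset.exists_subset_card_eq (s := (Set.toFinite 𝒴).toFinset) (n := k)
    (by rw [← Set.ncard_eq_toFinset_card]; exact Nat.lt_succ_iff.1 hk)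
  obtain ⟨v, hv, h6⟩ := h3 J fun Y hY => (Set.toFinite 𝒴).mem_toFinset.1 (hJ hY)
  exact ⟨v, hv, by simp only [h6, Set.ncard_coe_finset, e]⟩

theorem BD.pair (h : BD V F W) {g₁ g₂ g₃ g₄ x₁ x₂ x₃ x₄ : G} (m₁ : x₁ ∈ cj g₁ W)
    (m₂ : x₂ ∈ cj g₂ W) (m₃ : x₃ ∈ cj g₃ W) (m₄ : x₄ ∈ cj g₄ W) (h₁ : x₁ ≠ 1)
    (n₁ : cj g₂ (F ⊓ cz W) ≠ cj g₁ (F ⊓ cz W)) (n₃ : cj g₃ (F ⊓ cz W) ≠ cj g₄ (F ⊓ cz W))
    (e : x₁ * x₂ = x₃ * x₄) : (x₁ = x₃ ∧ x₂ = x₄) ∨ (x₁ = x₄ ∧ x₂ = x₃) := by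
  have key : ∀ {g g' y y' : G}, y ∈ cj g W → y' ∈ cj g' W → cj g (F ⊓ cz W) = cj g₁ (F ⊓ cz W) →
      cj g' (F ⊓ cz W) ≠ cj g₁ (F ⊓ cz W) → x₁ * x₂ = y * y' → x₁ = y ∧ x₂ = y' := by
    intro g g' y y' hy hy' e1 e2 e3
    have h1 : y⁻¹ * x₁ = 1 := by
      refine h.eq_one (g := g₁) ?_ (Subgroup.mul_mem _ (Subgroup.inv_mem _ (e1 ▸ h.le_cz g hy))
        (h.le_cz g₁ m₁))
      rw [show y⁻¹ * x₁ = y' * x₂⁻¹ by rw [inv_mul_eq_iff_eq_mul, ← mul_assoc, ← e3]; group]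
      exact Subgroup.mul_mem _ (le_rst e2 hy') (Subgroup.inv_mem _ (le_rst n₁ m₂))
    obtain rfl := inv_mul_eq_one.1 h1
    exact ⟨rfl, mul_left_cancel e3⟩
  by_cases e₃ : cj g₃ (F ⊓ cz W) = cj g₁ (F ⊓ cz W)
  · exact Or.inl (key m₃ m₄ e₃ (fun e₄ => n₃ (e₃.trans e₄.symm)) e)
  by_cases e₄ : cj g₄ (F ⊓ cz W) = cj g₁ (F ⊓ cz W)
  · exact Or.inr (key m₄ m₃ e₄ e₃
      (e.trans (comm_eq_bot_iff.1 h.ab _ (h.cj_le _ m₃) _ (h.cj_le _ m₄)).eq))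
  refine absurd (h.eq_one (g := g₁) ?_ (h.le_cz g₁ m₁)) h₁
  rw [eq_mul_inv_of_mul_eq e]
  exact Subgroup.mul_mem _ (Subgroup.mul_mem _ (le_rst e₃ m₃) (le_rst e₄ m₄))
    (Subgroup.inv_mem _ (le_rst n₁ m₂))

end Pool.Agent.Lib.MP_634dc6_al
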