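import Pool.Agent.Lib.MP_634dc6_al.S.SIdx

/-!
Counting automorphisms of a central product with cyclic centre.
-/

namespace Pool.Agent.Lib.MP_634dc6_al

variable {G : Type} [Group G] [Finite G] {ι : Type} [Finite ι] {M : ℕ} {Z J : Subgroup G}
  {Λ : ι → Subgroup G}

/-- Map `j` to its coset modulo `Z`; if `j' = j z` then `z ^ y = 1`, and the cyclic group `Z` has at
most `y` such elements (`IsCyclic.card_pow_eq_one_le`). -/
theorem cnt_fib (_hZJ : Z ≤ J) [IsCyclic Z] (hc : ⁅Z, J⁆ = ⊥) {y : ℕ} (hy : y ≠ 0) (t : G) :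
    {j | j ∈ J ∧ j ^ y = t}.ncard ≤ Z.relIndex J * y := by
  classical
  have := Fintype.ofFinite Z
  have h1 : {z : Z | z ^ y = 1}.ncard ≤ y := by
    have h2 := IsCyclic.card_pow_eq_one_le (α := Z) (Nat.pos_of_ne_zero hy)
    rwa [← Set.ncard_coe_finset, Finset.coe_filter_univ] at h2
  let F : J ⧸ Z.subgroupOf J → Set G := fun q =>
    {j | ∃ h : j ∈ J, j ^ y = t ∧ QuotientGroup.mk ⟨j, h⟩ = q}
  have h2 : {j | j ∈ J ∧ j ^ y = t} ⊆ ⋃ q, F q := fun j hj =>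
    Set.mem_iUnion.2 ⟨_, hj.1, hj.2, rfl⟩
  refine (Set.ncard_le_ncard h2 (Set.toFinite _)).trans (moda_iUnion F y fun q => ?_)
  rcases (F q).eq_empty_or_nonempty with h | ⟨j₀, h3, h4, h5⟩
  · rw [h, Set.ncard_empty]
    exact Nat.zero_le _
  refine le_trans (Set.ncard_le_ncard ?_ (Set.toFinite _))
    ((Set.ncard_image_le (f := fun z : Z => j₀ * z) (Set.toFinite _)).trans h1)
  rintro j ⟨h6, h7, h8⟩
  have h9' := QuotientGroup.eq.1 (h5.trans h8.symm)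
  have h9 : j₀⁻¹ * j ∈ Z := h9'
  refine ⟨⟨_, h9⟩, Subtype.ext ?_, mul_inv_cancel_left _ _⟩
  have h10 := (comm_eq_bot_iff.1 hc _ h9 j₀ h3).symm.mul_pow y
  rw [mul_inv_cancel_left, h7, h4] at h10
  exact mul_eq_left.1 h10.symm

/-- Let `y = Z.relIndex J`. By `autl_gen` in `↥J` there is a finset `T ⊆ J` with `2 ^ T.card ≤ y`
such that `Z` and `T` generate `J`, so `cz Z ⊓ ⨅ t ∈ T, centralizer {t} ≤ cz J`. For `a ∈ cz Z` the
element `a t a⁻¹` has the same `y`-th power as `t` (`Subgroup.pow_relIndex_mem`); `ncard_conj_eq`,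
`cnt_fib`, `Subgroup.relIndex_iInf_le`. -/
theorem cnt_J [Z.Normal] [J.Normal] (hZJ : Z ≤ J) [IsCyclic Z] (hc : ⁅Z, J⁆ = ⊥) :
    (cz J).relIndex (cz Z) ≤ (Z.relIndex J ^ 2) ^ Nat.log 2 (Z.relIndex J) := by
  obtain ⟨T, h1, h2⟩ := autl_gen (Z.subgroupOf J)
  have hy : Z.relIndex J ≠ 0 := Subgroup.FiniteIndex.index_ne_zero
  have h3 : T.card ≤ Nat.log 2 (Z.relIndex J) := by
    refine Nat.le_log_of_pow_le one_lt_two ?_
    rw [← (Z.subgroupOf J).index_mul_card] at h2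
    exact Nat.le_of_mul_le_mul_right h2 Nat.card_pos
  have h4 : (⨅ t : T, Subgroup.centralizer {((t : J) : G)}) ⊓ cz Z ≤ cz J := by
    rintro a ⟨ha, hz⟩
    have h5 : (⊤ : Subgroup J) ≤ (Subgroup.centralizer {a}).subgroupOf J := by
      rw [← h1]
      refine sup_le (fun z h => Subgroup.mem_centralizer_singleton_iff.2
        (Subgroup.mem_centralizer_iff.1 hz _ h)) ((Subgroup.closure_le _).2 fun t ht => ?_)
      exact Subgroup.mem_centralizer_singleton_iff.2 (Subgroup.mem_centralizer_singleton_iff.1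
        (Subgroup.mem_iInf.1 ha ⟨t, ht⟩)).symm
    exact Subgroup.mem_centralizer_iff.2 fun j hj =>
      Subgroup.mem_centralizer_singleton_iff.1 (h5 (Subgroup.mem_top ⟨j, hj⟩))
  have h5 : ∀ t : J, (Subgroup.centralizer {(t : G)}).relIndex (cz Z) ≤ Z.relIndex J ^ 2 := by
    intro t
    rw [← ncard_conj_eq, sq]
    refine le_trans (Set.ncard_le_ncard ?_ (Set.toFinite _))
      (cnt_fib hZJ hc hy ((t : G) ^ Z.relIndex J))
    rintro _ ⟨a, ha, rfl⟩
    refine ⟨‹J.Normal›.conj_mem _ t.2 a, ?_⟩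
    rw [conj_pow, ← Subgroup.mem_centralizer_iff.1 ha _ (Subgroup.pow_relIndex_mem Z t.2),
      mul_inv_cancel_right]
  refine (Subgroup.relIndex_le_of_le_left h4 Subgroup.FiniteIndex.index_ne_zero).trans ?_
  rw [Subgroup.inf_relIndex_right]
  refine (Subgroup.relIndex_iInf_le _).trans
    ((Finset.prod_le_pow_card _ _ _ fun (t : T) _ => h5 t).trans ?_)
  rw [Finset.card_univ, Fintype.card_coe]
  exact Nat.pow_le_pow_right (Nat.pos_of_ne_zero (pow_ne_zero _ hy)) h3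

/-- The proof of `GS.index_cm_le` (file `STopB`) with the union taken over `I`. -/
theorem cnt_perm [Z.Normal] {I : Set ι} (hI : InvS Λ I) (hM : ∀ i ∈ I, Z.relIndex (Λ i) ≤ M) :
    (cm (jn Λ I) Z).index ≤ Nat.factorial (I.ncard * M) := by
  let f := QuotientGroup.mk' Z
  let X : Set (G ⧸ Z) := ⋃ i : I, ((Λ i).map f : Set (G ⧸ Z))
  have hX : ∀ g : G, ∀ x ∈ X, f g * x * (f g)⁻¹ ∈ X := by
    intro g x hx
    obtain ⟨i, b, hb, rfl⟩ := Set.mem_iUnion.1 hx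
    obtain ⟨j, hj, e⟩ := hI g i i.2
    exact Set.mem_iUnion.2 ⟨⟨j, hj⟩, g * b * g⁻¹, e ▸ conj_mem_cj g hb, by simp⟩
  let act : MulAction G X :=
    { smul := fun g x => ⟨f g * x * (f g)⁻¹, hX g x x.2⟩
      one_smul := fun x => Subtype.ext (by
        change f 1 * x * (f 1)⁻¹ = x
        simp)
      mul_smul := fun a b x => Subtype.ext (by
        change f (a * b) * x * (f (a * b))⁻¹ = f a * (f b * x * (f b)⁻¹) * (f a)⁻¹
        simp [mul_assoc]) }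
  let ψ : G →* Equiv.Perm X := MulAction.toPermHom G X
  have hker : ψ.ker ≤ cm (jn Λ I) Z := by
    intro g hg
    refine mem_cm_jn.2 fun i hi => mem_cm.2 fun b hb => ?_
    have h1 : f g * f b * (f g)⁻¹ = f b := congrArg Subtype.val
      (Equiv.congr_fun (MonoidHom.mem_ker.1 hg) ⟨f b, Set.mem_iUnion.2 ⟨⟨i, hi⟩, b, hb, rfl⟩⟩)
    rw [← QuotientGroup.eq_one_iff]
    change f (g * b * g⁻¹ * b⁻¹) = 1
    rw [map_mul, map_mul, map_mul, map_inv, map_inv, h1, mul_inv_cancel]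
  have hc : Nat.card X ≤ I.ncard * M := by
    rw [Nat.card_coe_set_eq, ← Nat.card_coe_set_eq I]
    refine moda_iUnion _ M fun i => ?_
    have h2 := Subgroup.relIndex_ker (K := Λ i) f
    rw [QuotientGroup.ker_mk'] at h2
    rw [← Nat.card_coe_set_eq]
    exact h2.ge.trans (hM i i.2)
  calc _ ≤ ψ.ker.index := Subgroup.index_antitone hker
    _ = Nat.card ψ.range := Subgroup.index_ker ψ
    _ ≤ Nat.card (Equiv.Perm X) := Subgroup.card_le_card_group _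
    _ = Nat.factorial (Nat.card X) := Nat.card_perm
    _ ≤ _ := Nat.factorial_le hc

/-- `cnt_perm` for `I = {i | Λ i ≠ ⊥}`; `perf_comm` with `X = cm (jn Λ I) Z` and `N = ⊥`. -/
theorem cnt_L [Z.Normal] (hp : ∀ i, ⁅Λ i, Λ i⁆ = Λ i)
    (hperm : ∀ g : G, ∃ π : Equiv.Perm ι, ∀ i, cj g (Λ i) = Λ (π i))
    (hc : ∀ i, ⁅Z, Λ i⁆ = ⊥) (hM : ∀ i, Z.relIndex (Λ i) ≤ M) :
    (cz (jn Λ Set.univ)).index ≤ Nat.factorial ({i | Λ i ≠ ⊥}.ncard * M) := by
  have hI : InvS Λ {i | Λ i ≠ ⊥} := fun g i hi => by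
    obtain ⟨π, hπ⟩ := hperm g
    exact ⟨π i, fun h => hi (cj_eq_bot.1 ((hπ i).trans h)), hπ i⟩
  refine (Subgroup.index_antitone ?_).trans (cnt_perm (Z := Z) hI fun i _ => hM i)
  rw [← Subgroup.commutator_eq_bot_iff_le_centralizer, ← le_bot_iff]
  refine comm_jn_le fun i _ => ?_
  by_cases hi : Λ i = ⊥
  · rw [hi, Subgroup.commutator_bot_right]
  · refine perf_comm (hp i) (le_trans (Subgroup.commutator_mono ?_ le_rfl) (hc i).le)
    exact (Subgroup.commutator_mono le_rfl (le_jn (J := {i | Λ i ≠ ⊥}) hi)).trans (le_cm.1 le_rfl)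

/-- The kernel of `MulAut.conjNormal : G →* MulAut Z` is `cz Z`; `card_mulAut_le_of_cyclic`; the
automorphism group of a cyclic group is commutative (`IsCyclic.mulAutMulEquiv`). -/
theorem cnt_Z [Z.Normal] [IsCyclic Z] :
    (cz Z).index ≤ Nat.card Z ∧ ⁅(⊤ : Subgroup G), ⊤⁆ ≤ cz Z := by
  have hk : (MulAut.conjNormal : G →* MulAut Z).ker = cz Z := by
    ext g
    rw [MonoidHom.mem_ker, Subgroup.mem_centralizer_iff]
    refine ⟨fun h z hz => ?_, fun h => MulEquiv.ext fun z => Subtype.ext ?_⟩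
    · have h1 : g * z * g⁻¹ = z := congrArg Subtype.val (MulEquiv.congr_fun h ⟨z, hz⟩)
      exact (mul_inv_eq_iff_eq_mul.1 h1).symm
    · exact mul_inv_eq_iff_eq_mul.2 (h z z.2).symm
  rw [← hk, Subgroup.index_ker]
  refine ⟨(Subgroup.card_le_card_group _).trans (card_mulAut_le_of_cyclic Z),
    comm_le_iff.2 fun a _ b _ => ?_⟩
  rw [MonoidHom.mem_ker, mul_assoc (a * b), ← mul_inv_rev, map_mul, map_inv, mul_inv_eq_one]
  refine (IsCyclic.mulAutMulEquiv Z).injective ?_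
  simp only [map_mul]
  exact mul_comm _ _

/-- `cnt_J` for `J ⊔ Z` (`Subgroup.relIndex_sup_right`), `cnt_L`,
`cz (J ⊔ Z) ⊓ cz (jn Λ univ) ≤ cz F`, `Subgroup.relIndex_inf_le`. -/
theorem cnt_F {F : Subgroup G} [Z.Normal] [J.Normal] [IsCyclic Z] (hF : F = J ⊔ jn Λ Set.univ)
    (hZF : Z ≤ F) (hc : ⁅Z, F⁆ = ⊥) (hp : ∀ i, ⁅Λ i, Λ i⁆ = Λ i)
    (hperm : ∀ g : G, ∃ π : Equiv.Perm ι, ∀ i, cj g (Λ i) = Λ (π i))
    (hM : ∀ i, Z.relIndex (Λ i) ≤ M) :
    (cz F).relIndex (cz Z) ≤ (Z.relIndex J ^ 2) ^ Nat.log 2 (Z.relIndex J) *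
      Nat.factorial ({i | Λ i ≠ ⊥}.ncard * M) := by
  have hJ : J ⊔ Z ≤ F := sup_le (hF ▸ le_sup_left) hZF
  have hL : ∀ i, Λ i ≤ F := fun i => hF ▸ (le_jn (Set.mem_univ i)).trans le_sup_right
  have h1 := cnt_J (Z := Z) (J := J ⊔ Z) le_sup_right
    (le_bot_iff.1 ((Subgroup.commutator_mono le_rfl hJ).trans hc.le))
  rw [Subgroup.relIndex_sup_right] at h1
  have h2 := cnt_L (Z := Z) hp hperm
    (fun i => le_bot_iff.1 ((Subgroup.commutator_mono le_rfl (hL i)).trans hc.le)) hM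
  have h3 : cz (J ⊔ Z) ⊓ cz (jn Λ Set.univ) ≤ cz F := by
    rw [Subgroup.le_centralizer_iff, hF]
    exact sup_le (Subgroup.le_centralizer_iff.1 (inf_le_left.trans
      (Subgroup.centralizer_le (SetLike.coe_subset_coe.2 le_sup_left))))
      (Subgroup.le_centralizer_iff.1 inf_le_right)
  refine (Subgroup.relIndex_le_of_le_left h3 Subgroup.FiniteIndex.index_ne_zero).trans
    (Subgroup.relIndex_inf_le.trans (Nat.mul_le_mul h1 (le_trans ?_ h2)))
  rw [← Subgroup.relIndex_top_right]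
  exact Subgroup.relIndex_le_of_le_right le_top Subgroup.FiniteIndex.index_ne_zero

/-- The projection from the normaliser of `Y` onto its quotient by `Y`. -/
def nq (Y : Subgroup G) : nz Y →* nz Y ⧸ Y.subgroupOf (nz Y) := QuotientGroup.mk' _

/-- The image of `X` in the quotient of the normaliser of `Y`. -/
def br (Y X : Subgroup G) : Subgroup (nz Y ⧸ Y.subgroupOf (nz Y)) :=
  (X.subgroupOf (nz Y)).map (nq Y)

variable {X Y : Subgroup G}

omit [Finite G] in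
theorem comap_cz_br (hX : X ≤ nz Y) : (cz (br Y X)).comap (nq Y) = (cm X Y).subgroupOf (nz Y) := by
  ext a
  rw [Subgroup.mem_comap, Subgroup.mem_subgroupOf, mem_cm_of_cj (mem_nz.1 a.2),
    Subgroup.mem_centralizer_iff]
  have key : ∀ b : nz Y, nq Y b * nq Y a = nq Y a * nq Y b ↔
      (a : G) * b * (a : G)⁻¹ * (b : G)⁻¹ ∈ Y := fun b =>
    ⟨fun h => (linb_commute (B := Y.subgroupOf (nz Y))).1 h.symm, fun h =>
      ((linb_commute (B := Y.subgroupOf (nz Y))).2 h).symm⟩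
  constructor
  · exact fun h b hb => (key ⟨b, hX hb⟩).1 (h _ ⟨⟨b, hX hb⟩, hb, rfl⟩)
  · rintro h _ ⟨b, hb, rfl⟩
    exact (key b).2 (h b hb)

omit [Finite G] in
/-- `Subgroup.relIndex_comap`, `Subgroup.map_comap_eq_self_of_surjective`,
`Subgroup.relIndex_subgroupOf`, `cm_le_nz`. -/
theorem relIndex_cz_br {X' : Subgroup G} (hX : X ≤ nz Y) (hX' : X' ≤ nz Y) :
    (cz (br Y X)).relIndex (cz (br Y X')) = (cm X Y).relIndex (cm X' Y) ∧
      (cz (br Y X)).index = (cm X Y).relIndex (nz Y) := by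
  have hs : Function.Surjective (nq Y) := QuotientGroup.mk'_surjective _
  constructor
  · rw [← Subgroup.map_comap_eq_self_of_surjective hs (cz (br Y X')), ← Subgroup.relIndex_comap,
      comap_cz_br hX, comap_cz_br hX', Subgroup.relIndex_subgroupOf (cm_le_nz _ _)]
  · rw [← Subgroup.index_comap_of_surjective _ hs, comap_cz_br hX]
    rfl

omit [Finite G] in
/-- `Subgroup.relIndex_map_map`; `map_mk_eq_bot`; `Subgroup.relIndex_ker`. -/
theorem relIndex_br {X' : Subgroup G} (hY : Y ≤ X) (hX' : X' ≤ nz Y) :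
    (br Y X).relIndex (br Y X') = X.relIndex X' ∧ (br Y X' = ⊥ ↔ X' ≤ Y) ∧
      Nat.card (br Y X') = Y.relIndex X' := by
  have hk : (nq Y).ker = Y.subgroupOf (nz Y) := QuotientGroup.ker_mk' _
  refine ⟨?_, ?_, ?_⟩
  · rw [br, br, ← Subgroup.relIndex_comap, Subgroup.comap_map_eq, hk,
      sup_eq_left.2 (Subgroup.subgroupOf_mono _ hY), Subgroup.relIndex_subgroupOf hX']
  · rw [br, Subgroup.map_eq_bot_iff, hk]
    exact ⟨fun h a ha => h (x := ⟨a, hX' ha⟩) ha, fun h => Subgroup.subgroupOf_mono _ h⟩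
  · rw [br, ← Subgroup.relIndex_ker, hk, Subgroup.relIndex_subgroupOf hX']

omit [Finite G] in
/-- `cj_map`, `cj_subgroupOf`. -/
theorem cj_br (a : nz Y) (X : Subgroup G) : cj (nq Y a) (br Y X) = br Y (cj (a : G) X) := by
  rw [br, br, ← cj_map, cj_subgroupOf]

omit [Finite G] in
/-- `comm_subgroupOf`, `jn_subgroupOf`, `jn_map`, `Subgroup.subgroupOf_sup`. -/
theorem br_hom {X' : Subgroup G} (hX : X ≤ nz Y) (hX' : X' ≤ nz Y) :
    ⁅br Y X, br Y X'⁆ = br Y ⁅X, X'⁆ ∧ br Y (X ⊔ X') = br Y X ⊔ br Y X' := by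
  rw [br, br, br, br, ← Subgroup.map_commutator, comm_subgroupOf hX hX', ← Subgroup.map_sup,
    Subgroup.subgroupOf_sup hX hX']
  exact ⟨rfl, rfl⟩

omit [Finite G] in
/-- The quotient `Z ⧸ Y.subgroupOf Z` maps onto `br Y Z` (`QuotientGroup.lift`,
`isCyclic_of_surjective`). -/
theorem isCyclic_br (hZ : Z ≤ nz Y)
    (h : ∀ [(Y.subgroupOf Z).Normal], IsCyclic (Z ⧸ Y.subgroupOf Z)) : IsCyclic (br Y Z) := by
  have : (Y.subgroupOf Z).Normal := ⟨fun n hn g =>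
    (Subgroup.mem_normalizer_iff.1 (hZ g.2) n).1 hn⟩
  have := h
  let φ : Z →* br Y Z := ((nq Y).comp (Subgroup.inclusion hZ)).codRestrict _ fun z =>
    ⟨Subgroup.inclusion hZ z, z.2, rfl⟩
  refine isCyclic_of_surjective (QuotientGroup.lift (Y.subgroupOf Z) φ fun z hz =>
    Subtype.ext ((QuotientGroup.eq_one_iff _).2 hz)) ?_
  rintro ⟨_, a, ha, rfl⟩
  exact ⟨QuotientGroup.mk ⟨a, ha⟩, rfl⟩

/-- `cnt_F` and `cnt_Z` in the quotient of the normaliser of `Y`. The group `Z` is normalised by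
`nz Y` (`cj_cm`), and `Y ≤ Z`. -/
theorem cnt_mod {F : Subgroup G} [F.Normal] [J.Normal] (hF : F = J ⊔ jn Λ Set.univ) (hYF : Y ≤ F)
    (hY : F ≤ nz Y) (hZ : Z = F ⊓ cm F Y)
    (hcyc : ∀ [(Y.subgroupOf Z).Normal], IsCyclic (Z ⧸ Y.subgroupOf Z))
    (hp : ∀ i, ⁅Λ i, Λ i⁆ = Λ i)
    (hperm : ∀ g : G, ∃ π : Equiv.Perm ι, ∀ i, cj g (Λ i) = Λ (π i))
    (hM : ∀ i, Z.relIndex (Λ i) ≤ M) :
    (cm F Y).relIndex (cm Z Y) ≤ (Z.relIndex J ^ 2) ^ Nat.log 2 (Z.relIndex J) *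
        Nat.factorial ({i | ¬ Λ i ≤ Y}.ncard * M) ∧
      (cm Z Y).relIndex (nz Y) ≤ Y.relIndex Z ∧ ⁅nz Y, nz Y⁆ ≤ cm Z Y := by
  have hs : Function.Surjective (nq Y) := QuotientGroup.mk'_surjective _
  have hZF : Z ≤ F := hZ ▸ inf_le_left
  have hZN := hZF.trans hY
  have hJ : J ≤ nz Y := (hF ▸ le_sup_left : J ≤ F).trans hY
  have hLj : jn Λ Set.univ ≤ nz Y := (hF ▸ le_sup_right : jn Λ Set.univ ≤ F).trans hY
  have hL : ∀ i, Λ i ≤ nz Y := fun i => (le_jn (Set.mem_univ i)).trans hLj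
  have hYZ : Y ≤ Z := fun y hy => hZ ▸ ⟨hYF hy, (mem_cm_of_cj (mem_nz.1 (hY (hYF hy)))).2
    fun f hf => by
      have e : y * f * y⁻¹ * f⁻¹ = y * (f * y⁻¹ * f⁻¹) := by group
      exact e ▸ Y.mul_mem hy ((Subgroup.mem_normalizer_iff.1 (hY hf) _).1 (Y.inv_mem hy))⟩
  have hn : ∀ X : Subgroup G, (∀ a ∈ nz Y, cj a X = X) → (br Y X).Normal := fun X h =>
    normal_of_cj fun g => by
      obtain ⟨a, rfl⟩ := hs g
      rw [cj_br, h a a.2]
  have := hn Z fun a ha => by rw [hZ, cj_inf, cj_cm, cj_normal, mem_nz.1 ha]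
  have := hn J fun a _ => cj_normal a J
  have := isCyclic_br hZN hcyc
  have h1 := cnt_F (M := M) (Z := br Y Z) (J := br Y J) (F := br Y F) (Λ := fun i => br Y (Λ i))
    (by
      rw [hF, (br_hom hJ hLj).2]
      congr 1
      rw [br, ← jn_subgroupOf hL, jn_map]
      rfl)
    (Subgroup.map_mono (Subgroup.subgroupOf_mono _ hZF))
    (by
      rw [(br_hom hZN hY).1, (relIndex_br le_rfl ((Subgroup.commutator_mono hZF le_rfl).trans
        ((perf_self F).trans hY))).2.1]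
      exact comm_le_iff.2 fun z hz f hf => (hZ ▸ hz : z ∈ F ⊓ cm F Y).2.2 f hf)
    (fun i => by rw [(br_hom (hL i) (hL i)).1, hp])
    (fun g => by
      obtain ⟨a, rfl⟩ := hs g
      obtain ⟨π, hπ⟩ := hperm a
      exact ⟨π, fun i => by rw [cj_br, hπ]⟩)
    fun i => (relIndex_br hYZ (hL i)).1 ▸ hM i
  obtain ⟨h2, h3⟩ := cnt_Z (Z := br Y Z)
  rw [(relIndex_cz_br hY hZN).1, (relIndex_br hYZ hJ).1] at h1
  rw [(relIndex_cz_br hZN hZN).2, (relIndex_br le_rfl hZN).2.2] at h2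
  simp only [ne_eq, fun i => (relIndex_br le_rfl (hL i)).2.1] at h1
  refine ⟨h1, h2, comm_le_iff.2 fun a ha b hb => ?_⟩
  have h4 : (⟨a, ha⟩ * ⟨b, hb⟩ * ⟨a, ha⟩⁻¹ * ⟨b, hb⟩⁻¹ : nz Y) ∈ (cz (br Y Z)).comap (nq Y) := by
    rw [Subgroup.mem_comap, map_mul, map_mul, map_mul, map_inv, map_inv]
    exact comm_le_iff.1 h3 _ (Subgroup.mem_top _) _ (Subgroup.mem_top _)
  rw [comap_cz_br hZN] at h4
  exact h4

end Pool.Agent.Lib.MP_634dc6_al
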