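import Pool.Agent.Lib.MP_634dc6_al.ModF

/-!
The field of endomorphisms of a finite simple module.
-/

namespace Pool.Agent.Lib.MP_634dc6_al

variable {A : Type} [AddCommGroup A] [Finite A] [Nontrivial A] {T : Set (Module.End ℤ A)}
  {Γ : Type} [Group Γ]

/-- Schur and Wedderburn. -/
theorem fld_isField
    (hirr : ∀ U : Submodule ℤ A, (∀ s ∈ T, ∀ u ∈ U, s u ∈ U) → U = ⊥ ∨ U = ⊤) :
    IsField (Subring.centralizer T) := by
  have : Finite (Module.End ℤ A) := DFunLike.finite _
  have : NoZeroDivisors (Subring.centralizer T) := ⟨fun {f g} h => by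
    rcases hirr (LinearMap.ker f.1) (fun s hs u hu => by
      rw [LinearMap.mem_ker] at hu ⊢
      rw [← Module.End.mul_apply, ← Subring.mem_centralizer_iff.1 f.2 s hs, Module.End.mul_apply,
        hu, map_zero]) with h1 | h1
    · refine Or.inr (Subtype.ext (LinearMap.ext fun w => LinearMap.ker_eq_bot'.1 h1 _ ?_))
      exact LinearMap.congr_fun (congrArg Subtype.val h) w
    · exact Or.inl (Subtype.ext (LinearMap.ker_eq_top.1 h1))⟩
  have : IsDomain (Subring.centralizer T) := NoZeroDivisors.to_isDomain _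
  exact Finite.isDomain_to_isField _

theorem fld_cent
    (hirr : ∀ U : Submodule ℤ A, (∀ s ∈ T, ∀ u ∈ U, s u ∈ U) → U = ⊥ ∨ U = ⊤)
    (σ : Γ →* Module.End ℤ A) (hσ : ∀ γ, ∀ t ∈ T, σ γ * t = t * σ γ) :
    σ.ker.index ∣ Nat.card A - 1 ∧ ∀ n : ℕ, n ≠ 0 → (∀ γ, σ γ ^ n = 1) → σ.ker.index ≤ n := by
  classical
  have : Finite (Module.End ℤ A) := DFunLike.finite _
  let F := Subring.centralizer T
  let _ : Field F := (fld_isField hirr).toField
  have : Module.Finite F A := Module.Finite.of_finite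
  let τ₀ : Γ →* F := σ.codRestrict F fun γ =>
    Subring.mem_centralizer_iff.2 fun t ht => (hσ γ t ht).symm
  let τ : Γ →* Fˣ := τ₀.toHomUnits
  have hk : τ.ker = σ.ker := by
    ext γ
    rw [MonoidHom.mem_ker, MonoidHom.mem_ker, Units.ext_iff, Subtype.ext_iff]
    rfl
  rw [← hk, Subgroup.index_ker]
  refine ⟨(Subgroup.card_subgroup_dvd_card _).trans ?_, fun n hn h => ?_⟩
  · rw [Nat.card_units, Module.natCard_eq_pow_finrank (K := F) (V := A)]
    simpa only [one_pow] using Nat.sub_dvd_pow_sub_pow (Nat.card F) 1 (Module.finrank F A)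
  · have := Fintype.ofFinite τ.range
    have h1 := IsCyclic.card_pow_eq_one_le (α := τ.range) (Nat.pos_of_ne_zero hn)
    rw [Finset.filter_true_of_mem, Finset.card_univ, ← Nat.card_eq_fintype_card] at h1
    · exact h1
    · rintro ⟨_, γ, rfl⟩ -
      exact Subtype.ext (Units.ext (Subtype.ext (h γ)))

theorem fld_card_hom (F : Type) [Field F] [Finite F] : 2 ^ Nat.card (F →+* F) ≤ Nat.card F := by
  obtain ⟨p, hp⟩ := CharP.exists F
  have h1 : p.Prime := CharP.char_is_prime F p
  have := Fact.mk h1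
  let _ : Algebra (ZMod p) F := ZMod.algebra F p
  have : Module.Finite (ZMod p) F := Module.Finite.of_finite
  have h2 : Nat.card (F →+* F) ≤ Nat.card (F →ₐ[ZMod p] F) :=
    Nat.card_le_card_of_injective (fun f => { f with
      commutes' := fun r => RingHom.congr_fun (RingHom.ext_zmod (f.comp (algebraMap _ F))
        (algebraMap _ F)) r }) fun f g h => RingHom.ext fun x => AlgHom.congr_fun h x
  rw [Module.natCard_eq_pow_finrank (K := ZMod p) (V := F), Nat.card_zmod]
  exact (Nat.pow_le_pow_right two_pos (h2.trans (card_algHom_le_finrank _ _ _))).trans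
    (Nat.pow_le_pow_left h1.two_le _)

theorem fld_gal
    (hirr : ∀ U : Submodule ℤ A, (∀ s ∈ T, ∀ u ∈ U, s u ∈ U) → U = ⊥ ∨ U = ⊤)
    (σ : Γ →* Module.End ℤ A) (hσ : ∀ γ, ∀ t ∈ T, ∃ t' ∈ T, σ γ * t = t' * σ γ) :
    ∃ Γ₀ : Subgroup Γ, 2 ^ Γ₀.index ≤ Nat.card A ∧
      ∀ γ ∈ Γ₀, ∀ f : Module.End ℤ A, (∀ t ∈ T, f * t = t * f) → σ γ * f = f * σ γ := by
  have : Finite (Module.End ℤ A) := DFunLike.finite _
  let F := Subring.centralizer T
  let _ : Field F := (fld_isField hirr).toField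
  have : Module.Finite F A := Module.Finite.of_finite
  have h1 : ∀ γ, σ γ⁻¹ * σ γ = 1 := fun γ => by rw [← map_mul, inv_mul_cancel, map_one]
  have h2 : ∀ γ, σ γ * σ γ⁻¹ = 1 := fun γ => by rw [← map_mul, mul_inv_cancel, map_one]
  have h3 : ∀ γ (f : F), σ γ * f.1 * σ γ⁻¹ ∈ F := fun γ f =>
    Subring.mem_centralizer_iff.2 fun t ht => by
      obtain ⟨t', ht', e⟩ := hσ γ⁻¹ t ht
      have e' : t * σ γ = σ γ * t' := by
        calc t * σ γ = σ γ * (σ γ⁻¹ * t) * σ γ := by rw [← mul_assoc, h2, one_mul]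
          _ = σ γ * t' := by rw [e, mul_assoc, mul_assoc, h1, mul_one]
      rw [mul_assoc _ _ t, e, ← mul_assoc, ← mul_assoc, ← mul_assoc, e', mul_assoc _ t',
        Subring.mem_centralizer_iff.1 f.2 t' ht', ← mul_assoc]
  let ψ : Γ →* (F →+* F) :=
    { toFun := fun γ =>
        { toFun := fun f => ⟨_, h3 γ f⟩
          map_one' := Subtype.ext (by
            change σ γ * 1 * σ γ⁻¹ = 1
            rw [mul_one, h2])
          map_mul' := fun f g => Subtype.ext (by
            change σ γ * (f.1 * g.1) * σ γ⁻¹ = σ γ * f.1 * σ γ⁻¹ * (σ γ * g.1 * σ γ⁻¹)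
            simp only [mul_assoc]
            rw [← mul_assoc (σ γ⁻¹), h1, one_mul])
          map_zero' := Subtype.ext (by
            change σ γ * 0 * σ γ⁻¹ = 0
            rw [mul_zero, zero_mul])
          map_add' := fun f g => Subtype.ext (by
            change σ γ * (f.1 + g.1) * σ γ⁻¹ = σ γ * f.1 * σ γ⁻¹ + σ γ * g.1 * σ γ⁻¹
            rw [mul_add, add_mul]) }
      map_one' := RingHom.ext fun f => Subtype.ext (by
        change σ 1 * f.1 * σ 1⁻¹ = f.1
        rw [inv_one, map_one, one_mul, mul_one])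
      map_mul' := fun a b => RingHom.ext fun f => Subtype.ext (by
        change σ (a * b) * f.1 * σ (a * b)⁻¹ = σ a * (σ b * f.1 * σ b⁻¹) * σ a⁻¹
        simp only [mul_inv_rev, map_mul, mul_assoc]) }
  have : Finite (F →+* F) := DFunLike.finite _
  refine ⟨ψ.toHomUnits.ker, ?_, fun γ hγ f hf => ?_⟩
  · have h4 : ψ.toHomUnits.ker.index ≤ Nat.card (F →+* F) := by
      rw [Subgroup.index_ker]
      exact (Subgroup.card_le_card_group _).trans
        (Nat.card_le_card_of_injective _ Units.val_injective)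
    refine ((Nat.pow_le_pow_right two_pos h4).trans (fld_card_hom F)).trans ?_
    rw [Module.natCard_eq_pow_finrank (K := F) (V := A)]
    exact Nat.le_self_pow Module.finrank_pos.ne' _
  · have h4 : ψ γ = 1 := congrArg Units.val (MonoidHom.mem_ker.1 hγ)
    have h5 : σ γ * f * σ γ⁻¹ = f := congrArg Subtype.val (RingHom.congr_fun h4
      ⟨f, Subring.mem_centralizer_iff.2 fun t ht => (hf t ht).symm⟩)
    calc σ γ * f = σ γ * f * σ γ⁻¹ * σ γ := by rw [mul_assoc _ _ (σ γ), h1, mul_one]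
      _ = _ := by rw [h5]

end Pool.Agent.Lib.MP_634dc6_al
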