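import Pool.Agent.Lib.MP_634dc6_al.S.SLin
import Pool.Agent.Lib.MP_634dc6_al.TopC

/-!
Under the hypothesis on `D` all active layers are good, and the main theorem follows.
-/

namespace Pool.Agent.Lib.MP_634dc6_al

variable {G : Type} [Group G] [Finite G] {ι : Type} [Finite ι] {M M' p q : ℕ}
  {D R A B E : Subgroup G} {K : ι → Subgroup G}

/-- The hypothesis on `D`. -/
structure HD (M : ℕ) (D : Subgroup G) : Prop where
  sol : Group.IsSolvable D
  mul : ∀ p : ℕ, p.Prime → M < p → ∀ x ∈ D, ∀ y ∈ D, PE p x → PE p y → PE p (x * y)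
  com : ∀ p : ℕ, p.Prime → M < p → ∀ x ∈ D, ∀ y ∈ D, PE p x → QE p y →
    Commute x (y ^ Nat.factorial M)

omit [Finite G] in
theorem HD.mono (h : HD M D) (hM : M ≤ M') : HD M' D := by
  refine ⟨h.sol, fun p hp h1 => h.mul p hp (hM.trans_lt h1), fun p hp h1 x hx y hy h2 h3 => ?_⟩
  obtain ⟨c, hc⟩ := Nat.factorial_dvd_factorial hM
  rw [hc, pow_mul]
  exact (h.com p hp (hM.trans_lt h1) x hx y hy h2 h3).pow_right c

omit [Finite G] in
theorem HD.map {G' : Type} [Group G'] (h : HD M D) (f : G →* G') (hf : Function.Injective f) :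
    HD M (D.map f) := by
  have h1 : ∀ {p : ℕ} {x : G}, PE p (f x) → PE p x := fun ⟨k, hk⟩ =>
    ⟨k, hf (by rw [map_pow, hk, map_one])⟩
  refine ⟨?_, ?_, ?_⟩
  · have := h.sol
    exact Group.isSolvable_of_surjective (MonoidHom.subgroupMap_surjective f D)
  · rintro p hp hM _ ⟨x, hx, rfl⟩ _ ⟨y, hy, rfl⟩ h2 h3
    rw [← map_mul]
    exact (h.mul p hp hM x hx y hy (h1 h2) (h1 h3)).map f
  · rintro p hp hM _ ⟨x, hx, rfl⟩ _ ⟨y, hy, rfl⟩ h2 h3
    rw [← map_pow]
    refine (h.com p hp hM x hx y hy (h1 h2) ?_).map f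
    rwa [QE, orderOf_injective f hf] at h3

omit [Finite G] in
/-- The `p`-elements of `D` form a normal `p`-subgroup. -/
theorem HD.mem_opr (h : HD M D) [hD : D.Normal] (hp : p.Prime) (hM : M < p) {x : G} (hx : x ∈ D)
    (hp' : PE p x) : x ∈ opr p D := by
  let P : Subgroup G :=
    { carrier := {x | x ∈ D ∧ PE p x}
      one_mem' := ⟨D.one_mem, 0, one_pow _⟩
      mul_mem' := fun ha hb => ⟨D.mul_mem ha.1 hb.1, h.mul p hp hM _ ha.1 _ hb.1 ha.2 hb.2⟩
      inv_mem' := fun ⟨h1, k, hk⟩ => ⟨D.inv_mem h1, k, by rw [inv_pow, hk, inv_one]⟩ }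
  have : P.Normal := ⟨fun n hn g =>
    ⟨hD.conj_mem n hn.1 g, hn.2.map (MulAut.conj g).toMonoidHom⟩⟩
  refine le_opr (P := P) (fun _ h1 => h1.1) (fun ⟨_, _, k, hk⟩ => ⟨k, Subtype.ext hk⟩) ⟨hx, hp'⟩

theorem opr_comm_ne (hp : p.Prime) (hq : q.Prime) (h : p ≠ q) (D : Subgroup G) :
    ⁅opr p D, opr q D⁆ ≤ ⊥ := by
  have := Fact.mk hp
  have := Fact.mk hq
  exact (Subgroup.commutator_le_inf _ _).trans
    (IsPGroup.disjoint_of_ne p q h _ _ (opr_pgroup p D) (opr_pgroup q D)).le_bot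

theorem PE.pow_fact (hp : p.Prime) (hM : p ≤ M) {x : G} (h : PE p x) :
    x ^ Nat.factorial M ^ Nat.card G = 1 := by
  obtain ⟨k, hk⟩ := h
  obtain ⟨b, -, hb⟩ := (Nat.dvd_prime_pow hp).1 (orderOf_dvd_of_pow_eq_one hk)
  have h1 : b ≤ Nat.card G := (Nat.lt_pow_self hp.one_lt).le.trans (hb ▸ orderOf_le_card)
  rw [← orderOf_dvd_iff_pow_eq_one, hb]
  exact (pow_dvd_pow p h1).trans (pow_dvd_pow_of_dvd (Nat.dvd_factorial hp.pos hM) _)

theorem GS.zh (h : GS M D R K) (hD : HD M D) (hq : q.Prime) (hl : Lyr q D A B) :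
    ZH M q (cm B A) (jn (fun i => res (K i)) Set.univ) := by
  have := h.nD
  have := hl.1.1
  have hB : IsPGroup q B := (opr_pgroup q D).to_le hl.2
  have h1 : ∀ n ∈ jn (fun i => res (K i)) Set.univ, n ^ Nat.factorial M ∈ D := fun n hn =>
    h.pow_mem (jn_mono le_rfl (fun i _ => res_le _) hn)
  rcases lt_or_ge M q with hM | hM
  · refine ⟨2, Or.inl le_rfl, fun n hn => ?_⟩
    obtain ⟨y, x, hd⟩ := dec_exists hq (n ^ Nat.factorial M)
    obtain ⟨⟨i, hi⟩, j, hj⟩ := hd.mem_pow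
    have hy : y ∈ D := hi ▸ D.pow_mem (h1 n hn) i
    have hx : x ∈ D := hj ▸ D.pow_mem (h1 n hn) j
    have h2 : opr q D ≤ cm B A := by
      rw [le_cm, Subgroup.commutator_comm]
      exact hl.1.comm_pgroup hq hB (opr_pgroup q D)
    rw [sq, pow_mul, hd.1, hd.2.1.mul_pow]
    refine Subgroup.mul_mem _ (mem_cm.2 fun b hb => ?_)
      (Subgroup.pow_mem _ (h2 (hD.mem_opr hq hM hx hd.2.2.2)) _)
    rw [← (hD.com q hq hM b (opr_le q D (hl.2 hb)) y hy (PE.of_mem hB hb) hd.2.2.1).eq,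
      mul_inv_cancel_right, mul_inv_cancel]
    exact A.one_mem
  · refine ⟨Nat.card G, Or.inr hM, fun n hn => parts fun s hs j hj => ?_⟩
    rcases le_or_gt s M with h2 | h2
    · rw [hj.pow_fact hs h2]
      exact Subgroup.one_mem _
    · have h3 : opr s D ≤ cm B A := le_cm.2 ((Subgroup.commutator_mono le_rfl hl.2).trans
        ((opr_comm_ne hs hq (by omega) D).trans bot_le))
      exact Subgroup.pow_mem _ (h3 (hD.mem_opr hs h2 (hj.mem_of_pow (coprime_factorial hs h2)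
        (h1 _ (Subgroup.pow_mem _ hn j))) hj)) _

theorem GS.two_pow_act (h : GS M D R K) (hD : Group.IsSolvable D) [A.Normal] [B.Normal]
    (hE : ∀ i, K i ≤ E) (hDE : D ≤ E) : 2 ^ (act K A B).ncard ≤ (cm B A).relIndex E := by
  have := h.nD
  have h1 := doubling (D ⊔ cm B A) (fun i => res (K i)) (act K A B).toFinite.toFinset
    fun j hj h2 => by
      refine act_iff.1 ((Set.Finite.mem_toFinset _).1 hj) (perf_le_of_sol hD (res_perf _) ?_)
      rw [← res_perf (K j), ← le_cm]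
      refine h2.trans (sup_le (le_cm.2 (Subgroup.commutator_le_left _ _)) (jn_le fun i hi => ?_))
      exact le_cm.2 (((Subgroup.commutator_mono (res_le _) (res_le _)).trans
        (h.comm i j hi.2)).trans le_sup_left)
  rw [← Set.ncard_eq_toFinset_card] at h1
  have h2 : Nat.card ↥(cm B A ⊔ E) = (cm B A).relIndex E * Nat.card (cm B A) := by
    rw [← Subgroup.relIndex_sup_left E, ← ((cm B A).subgroupOf (cm B A ⊔ E)).index_mul_card,
      Nat.card_congr (Subgroup.subgroupOfEquivOfLe le_sup_left).toEquiv]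
    rfl
  refine Nat.le_of_mul_le_mul_right (c := Nat.card (cm B A)) ?_ Nat.card_pos
  rw [← h2]
  refine le_trans (Nat.mul_le_mul_left _ (Subgroup.card_le_of_le le_sup_right))
    (h1.trans (Subgroup.card_le_of_le ?_))
  exact sup_le (sup_le (hDE.trans le_sup_right) le_sup_left)
    (jn_le fun i _ => ((res_le _).trans (hE i)).trans le_sup_right)

omit [Finite G] in
theorem comap_cz_map [A.Normal] (B : Subgroup G) :
    (cz (B.map (QuotientGroup.mk' A))).comap (QuotientGroup.mk' A) = cm B A := by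
  ext a
  rw [Subgroup.mem_comap, mem_cm, Subgroup.mem_centralizer_iff]
  constructor
  · exact fun h b hb => linb_commute.1 (h _ ⟨b, hb, rfl⟩).symm
  · rintro h _ ⟨b, hb, rfl⟩
    exact (linb_commute.2 (h b hb)).symm

/-- `lin_main` in the quotient by `A`. -/
theorem GS.good (M : ℕ) : ∃ c : ℕ, ∀ (G : Type) [Group G] [Finite G] (ι : Type) [Finite ι]
    (D R E : Subgroup G) (K : ι → Subgroup G), GS M D R K → HD M D → E.Normal → Sm M E → R ≤ E →
    (∀ i, K i ≤ E) → Good c D R K := by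
  obtain ⟨c, hc⟩ := lin_main M
  obtain ⟨C, hC⟩ := divb (8 * (c + 1))
  refine ⟨C + c + 1, fun G _ _ ι _ D R E K h hD hE hS hR hK r hr A B _ hl ⟨i, hi⟩ => ?_⟩
  have := hl.1.2.1
  have hs := QuotientGroup.mk'_surjective A
  have hL : (jn (fun i => res (K i)) Set.univ).Normal := jn_normal fun g i _ => by
    obtain ⟨π, hπ⟩ := h.res_perm g
    exact ⟨π i, trivial, hπ i⟩
  obtain ⟨h1, h2, e, h3, h4, h5⟩ := hc (G ⧸ A) r (B.map (QuotientGroup.mk' A))
    (E.map (QuotientGroup.mk' A)) ((jn (fun i => res (K i)) Set.univ).map (QuotientGroup.mk' A))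
    hr (((opr_pgroup r D).to_le hl.2).map _) hl.1.minNor (hE.map _ hs)
    (hS.of_surjective _ (MonoidHom.subgroupMap_surjective _ E)) (hL.map _ hs)
    (Subgroup.map_mono (jn_le fun i _ => (res_le _).trans (hK i)))
    (map_perf _ (jn_perf (fun i => res_perf _) _))
    (by
      rw [← Subgroup.map_commutator, Ne, map_mk_eq_bot]
      exact act_jn.2 ⟨i, hi, trivial⟩)
    (by
      obtain ⟨a, h1, h2⟩ := h.zh hD hr hl
      refine ⟨a, h1, ?_⟩
      rintro _ ⟨n, hn, rfl⟩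
      rw [← map_pow, ← Subgroup.mem_comap, comap_cz_map]
      exact h2 n hn)
  rw [← Subgroup.relIndex_comap, comap_cz_map] at h2
  have h6 := (Nat.pow_le_pow_iff_right one_lt_two).1
    ((h.two_pow_act (A := A) (B := B) hD.sol hK (h.DR.trans hR)).trans h2)
  have h7 : 0 < kap A B := om_pos ⟨1, Subgroup.one_mem _⟩
  have h8 : kap A B ^ c ≤ (C + c + 1) * kap A B ^ (C + c + 1) :=
    (Nat.pow_le_pow_right h7 (by omega)).trans (Nat.le_mul_of_pos_left _ (Nat.succ_pos _))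
  refine ⟨h6.trans h8, ⟨e, Nat.pos_of_ne_zero h3, fun g hg => ?_, ?_⟩, h1.trans h8⟩
  · rw [← comap_cz_map, Subgroup.mem_comap, map_pow]
    exact h5 _ ⟨g, hR hg, rfl⟩
  · refine le_trans ((Nat.pow_le_pow_iff_left (Nat.succ_ne_zero c)).1 ?_)
      (Nat.mul_le_mul_right (kap A B) (show C ≤ C + c + 1 by omega))
    rw [← pow_mul, mul_pow]
    exact (hC e (Nat.pos_of_ne_zero h3)).trans (Nat.mul_le_mul (Nat.le_self_pow c.succ_ne_zero C)
      (h4.trans (Nat.pow_le_pow_right h7 c.le_succ)))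

omit [Finite G] [Finite ι] in
theorem GS.mono (h : GS M D R K) (hM : M ≤ M') : GS M' D R K :=
  { h with idx := fun i => (h.idx i).trans hM }

omit [Finite G] in
theorem Sm.mono (h : Sm M G) (hM : M ≤ M') : Sm M' G :=
  fun A T _ f h1 h2 h3 => (h A T f h1 h2 h3).trans hM

/-- `GS.good` in the holomorph. -/
theorem goodAll (M M' : ℕ) : ∃ c : ℕ, ∀ (G : Type) [Group G] [Finite G] (D : Subgroup G),
    HD M D → Sm M G → GoodAll M' c D := by
  obtain ⟨c, hc⟩ := GS.good (M + M')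
  refine ⟨c, fun G _ _ D hD hG ι _ R K h => ?_⟩
  have inj : Function.Injective (SemidirectProduct.inl : G →* Hol G) :=
    SemidirectProduct.inl_injective
  exact hc (Hol G) ι _ _ ((⊤ : Subgroup G).map SemidirectProduct.inl) _
    ((h.gs.mono (Nat.le_add_left _ _)).hol h.aD h.aR h.aK)
    ((hD.mono (Nat.le_add_right _ _)).map _ inj)
    (hol_normal fun φ => Subgroup.map_top_of_surjective _ φ.surjective)
    (((hG.mono (Nat.le_add_right _ _)).of_injective _
      (⊤ : Subgroup G).subtype_injective).of_surjective _ (MonoidHom.subgroupMap_surjective _ _))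
    (Subgroup.map_mono le_top) fun i => Subgroup.map_mono le_top

omit [Finite G] in
theorem PE.exists_sylow {x : G} (h : PE p x) : ∃ P : Sylow p G, x ∈ P := by
  have h1 : IsPGroup p (Subgroup.zpowers x) := by
    obtain ⟨k, hk⟩ := h
    rintro ⟨_, i, rfl⟩
    refine ⟨k, Subtype.ext ?_⟩
    show (x ^ i) ^ p ^ k = 1
    rw [← zpow_natCast, ← zpow_mul, mul_comm, zpow_mul, zpow_natCast, hk, one_zpow]
  obtain ⟨P, hP⟩ := h1.exists_le_sylow
  exact ⟨P, hP (Subgroup.mem_zpowers x)⟩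

/-- A `p`-element lies in a Sylow subgroup, and a normal Sylow subgroup is the only one. -/
theorem hd_of_sylow (hs : Group.IsSolvable D)
    (h : ∀ p : ℕ, p.Prime → M < p → ∀ P : Sylow p D, (P : Subgroup D).Normal ∧
      ∀ x ∈ P, ∀ y : D, (orderOf y).Coprime p → Commute x (y ^ M.factorial)) : HD M D := by
  have h1 : ∀ {p : ℕ} {x : G} (hx : x ∈ D), PE p x → ∃ P : Sylow p D, (⟨x, hx⟩ : D) ∈ P :=
    fun hx ⟨k, hk⟩ => PE.exists_sylow ⟨k, Subtype.ext hk⟩
  refine ⟨hs, fun p hp hM x hx y hy h2 h3 => ?_, fun p hp hM x hx y hy h2 h3 => ?_⟩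
  · have := Fact.mk hp
    obtain ⟨P, hP⟩ := h1 hx h2
    obtain ⟨P', hP'⟩ := h1 hy h3
    have := P.unique_of_normal (h p hp hM P).1
    obtain rfl : P = P' := Subsingleton.elim _ _
    exact (PE.of_mem P.isPGroup' ((P : Subgroup D).mul_mem hP hP')).map D.subtype
  · obtain ⟨P, hP⟩ := h1 hx h2
    exact ((h p hp hM P).2 _ hP ⟨y, hy⟩ (by rwa [Subgroup.orderOf_mk])).map D.subtype

/-- `final_of_good`, `goodAll`, `hd_of_sylow`. -/
theorem final (M : ℕ) (Q : ℝ) : ∃ B : ℕ, ∀ (G : Type) [Group G] [Finite G] (R X : Subgroup G),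
    R.Normal → Group.IsSolvable R →
    (∀ N : Subgroup G, N.Normal → Group.IsSolvable N → N ≤ R) →
    (∃ (k : ℕ) (s : ℕ → Subgroup G), s 0 = ⊥ ∧ s k = ⊤ ∧ ∀ j < k, s j ≤ s (j + 1) ∧
      ((s j).subgroupOf (s (j + 1))).Normal ∧
      (⁅s (j + 1), s (j + 1)⁆ ≤ s j ∨ (s j).relIndex (s (j + 1)) ≤ M)) →
    X = ⁅R, ⨅ n, derivedSeries G n⁆ →
    (∀ p : ℕ, p.Prime → M < p → ∀ P : Sylow p X, (P : Subgroup X).Normal ∧
      ∀ x ∈ P, ∀ y : X, (orderOf y).Coprime p → Commute x (y ^ M.factorial)) →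
    (Nat.card (MulAction.orbitRel.Quotient (MulAut G) G) : ℝ) /
      (Nat.card (Set.range (orderOf : G → ℕ)) : ℝ) ≤ Q →
    R.index ≤ B := by
  obtain ⟨M', hM'⟩ := final_of_good M
  obtain ⟨c, hc⟩ := goodAll M M'
  obtain ⟨B, hB⟩ := hM' c Q
  refine ⟨B, fun G _ _ R X h1 h2 h3 ⟨k, s, h4, h5, h6⟩ hX h7 h8 => ?_⟩
  have hG : Sm M G := sm_of_series k s h4 h5 h6
  rw [← res_top_eq] at hX
  have hs : Group.IsSolvable X := Group.isSolvable_of_isSolvable_injective
    (Subgroup.inclusion_injective (hX.le.trans (Subgroup.commutator_le_left R _)))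
  have hD := hd_of_sylow hs h7
  subst hX
  exact hB G R ⟨h1, h2, h3⟩ hG (hc G _ hD hG) h8

end Pool.Agent.Lib.MP_634dc6_al
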