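import Pool.Agent.Lib.MP_634dc6_al.S.SStr
import Pool.Agent.Lib.MP_634dc6_al.S.SBlk
import Pool.Agent.Lib.MP_634dc6_al.S.SAmb
import Pool.Agent.Lib.MP_634dc6_al.S.SCnt
import Pool.Agent.Lib.MP_634dc6_al.NumL

/-!
A commutative minimal normal subgroup on which a perfect group acts has many classes.
-/

namespace Pool.Agent.Lib.MP_634dc6_al

variable {G : Type} [Group G] [Finite G] {V E F W L : Subgroup G}

/-- The kernel of the action of `F` on `W`. -/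
abbrev ky (F W : Subgroup G) : Subgroup G := F ⊓ cz W

/-- The preimage of the centre of `F` modulo the kernel. -/
abbrev kz (F W : Subgroup G) : Subgroup G := F ⊓ cm F (ky F W)

/-- The image of `L` modulo `C` is `M`-smooth, of bounded exponent if `r` is large. -/
def ZH (M r : ℕ) (C L : Subgroup G) : Prop :=
  ∃ a : ℕ, (a ≤ 2 ∨ r ≤ M) ∧ ∀ n ∈ L, n ^ Nat.factorial M ^ a ∈ C

omit [Finite G] in
theorem BD.le_nz (h : BD V F W) : F ≤ nz (ky F W) := h.minI.1.le_nz.trans h.nz_le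

omit [Finite G] in
/-- `mem_cm_of_cj`; the commutator lies in `F` since `F` is normal. -/
theorem BD.mem_cm (h : BD V F W) {X : Subgroup G} (hX : X ≤ F) {a : G} (ha : a ∈ nz (ky F W))
    (hc : ∀ x ∈ X, a * x * a⁻¹ * x⁻¹ ∈ cz W) : a ∈ cm X (ky F W) := by
  exact (mem_cm_of_cj (Pool.Agent.Lib.MP_634dc6_al.mem_nz.1 ha)).2 fun x hx =>
    ⟨F.mul_mem (h.nF.conj_mem x (hX hx) a) (F.inv_mem (hX hx)), hc x hx⟩

omit [Finite G] in
theorem mem_cz_cj {g x : G} : x ∈ cz (cj g W) ↔ g⁻¹ * x * g ∈ cz W := by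
  rw [cz, ← cj_centralizer_coe, mem_cj]

omit [Finite G] in
theorem BD.cz_le (h : BD V F W) : cz V ≤ cz W := Subgroup.centralizer_le h.le

omit [Finite G] in
theorem BD.cn (h : BD V F W) (hc : ⁅F, F⁆ ≤ cz V) {f : G} (hf : f ∈ F) : Cn F W f :=
  ⟨h.minI.1.le_nz hf, fun x hx => h.cz_le (comm_le_iff.1 hc f hf x hx)⟩

omit [Finite G] in
theorem BD.nz_cm (h : BD V F W) : nz (ky F W) ≤ nz (cm F (ky F W)) := fun a ha => by
  have := h.nF
  rw [Pool.Agent.Lib.MP_634dc6_al.mem_nz] at ha ⊢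
  rw [cj_cm, cj_normal, ha]

theorem BD.two_le (h : BD V F W) : 2 ≤ Nat.card W :=
  (Subgroup.one_lt_card_iff_ne_bot W).2 h.minI.2.1

omit [Finite G] in
theorem pow_relIndex_mem_nz {A S : Subgroup G} (h : S ≤ nz A) {x : G} (hx : x ∈ S) :
    x ^ A.relIndex S ∈ A := by
  have : (A.subgroupOf S).Normal :=
    ⟨fun n hn s => (Subgroup.mem_normalizer_iff.1 (h s.2) (n : G)).1 hn⟩
  exact (A.subgroupOf S).pow_index_mem ⟨x, hx⟩

omit [Finite G] in
/-- For `f ∈ F` and `g : G` the element `g⁻¹ (x f x⁻¹ f⁻¹) g` lies in `cz W`; `BD.fa`, `mem_cj`,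
`cj_centralizer_coe`. -/
theorem BD.mem_cm_cz (h : BD V F W) {x : G} (hx : ∀ g : G, g⁻¹ * x * g ∈ cm F (ky F W)) :
    x ∈ cm F (cz V) := by
  have := h.nV
  refine Pool.Agent.Lib.MP_634dc6_al.mem_cm.2 fun f hf => h.fa _ fun g => mem_cz_cj.2 ?_
  have h1 := ((hx g).2 _ (h.nF.conj_mem' f hf g)).2
  rwa [show g⁻¹ * x * g * (g⁻¹ * f * g) * (g⁻¹ * x * g)⁻¹ * (g⁻¹ * f * g)⁻¹ =
    g⁻¹ * (x * f * x⁻¹ * f⁻¹) * g by group] at h1

/-- `amb_proj` with `H = F`, `B = kz F W`, `E = J`; `amb_dim`; `cnt_mod`; `num_G` with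
`X = log₂ (card W)`. One needs `J ⊓ cm J (cz W) ≤ kz F W` (an element of `J` commutes with the
`Λ i` modulo `cz V ≤ cz W`; the `f ∈ F` with `j f j⁻¹ f⁻¹ ∈ cz W` form a subgroup) and
`F ⊓ cm F (cz V) ≤ kz F W` (`BD.mem_cm`), with `Subgroup.inf_relIndex_right`,
`Subgroup.relIndex_le_of_le_left`. -/
theorem lin_loc (M : ℕ) : ∃ C : ℕ, ∀ (G : Type) [Group G] [Finite G] (ι : Type) [Finite ι]
    (V E F J W : Subgroup G) (Λ : ι → Subgroup G), BD V F W → FS M (cz V) E F J Λ →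
    ∃ γ : ℕ, (Nat.log 2 (Nat.card W) * γ) ^ 4 ≤ C * Nat.card W ∧
      (cm F (ky F W)).relIndex (cm (kz F W) (ky F W)) ≤ γ ∧
      (cm (kz F W) (ky F W)).relIndex (nz (ky F W)) ≤ Nat.card W ∧
      (ky F W).relIndex (kz F W) ≤ Nat.card W ∧
      ⁅nz (ky F W), nz (ky F W)⁆ ≤ cm (kz F W) (ky F W) := by
  obtain ⟨C, hC⟩ := num_G M
  refine ⟨C, fun G _ _ ι _ V E F J W Λ h hs => ?_⟩
  have := h.nV
  have := h.nF
  have := hs.nJ
  have hJ : J ≤ F := le_sup_left.trans hs.eq.ge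
  have hΛ : ∀ i, Λ i ≤ F := fun i =>
    ((le_jn (Set.mem_univ i)).trans le_sup_right).trans hs.eq.ge
  obtain ⟨x, hx, h1, h2⟩ := amb_proj h.abW h.minI
  obtain ⟨h3, h4, -⟩ := h1 (kz F W) inf_le_left
    (comm_le_iff.2 fun a ha b hb => (ha.2.2 b hb).2)
  have h5 : (ky F W).subgroupOf (kz F W) = (cz W).subgroupOf (kz F W) := by
    ext a
    exact ⟨fun ha => ha.2, fun ha => ⟨a.2.1, ha⟩⟩
  have key : ∀ (N' : Subgroup (kz F W)) [N'.Normal], N' = (cz W).subgroupOf (kz F W) →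
      IsCyclic (kz F W ⧸ N') := by
    intro N' _ e
    subst e
    exact h4
  obtain ⟨h6, h7, h8⟩ := cnt_mod (M := M) (Z := kz F W) hs.eq inf_le_left h.le_nz rfl (key _ h5)
    hs.perf hs.perm fun i => by
      refine le_trans (Subgroup.relIndex_le_of_le_left (H := cm F (cz V) ⊓ Λ i) (fun a ha => ?_)
        Subgroup.FiniteIndex.index_ne_zero) ((Subgroup.inf_relIndex_right _ _).le.trans (hs.idx i))
      exact ⟨hΛ i ha.2, h.mem_cm le_rfl (h.le_nz (hΛ i ha.2)) fun f hf => h.cz_le (ha.1.2 f hf)⟩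
  have h9 : (ky F W).relIndex (kz F W) ≤ Nat.card W := by
    rw [Subgroup.relIndex, h5]
    exact h3
  have h10 : F ≤ cm (cm J (cz W) ⊓ J) (cz W) := by
    have h11 : ∀ f ∈ F, (∀ a ∈ cm J (cz W) ⊓ J, a * f * a⁻¹ * f⁻¹ ∈ cz W) →
        f ∈ cm (cm J (cz W) ⊓ J) (cz W) := fun f hf hc => by
      refine (mem_cm_of_cj ?_).2 fun a ha => ?_
      · rw [cj_centralizer_coe, mem_nz.1 (h.minI.1.le_nz hf)]
      · have h12 := (cz W).inv_mem (hc a ha)
        rwa [show (a * f * a⁻¹ * f⁻¹)⁻¹ = f * a * f⁻¹ * a⁻¹ by group] at h12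
    exact hs.eq.le.trans (sup_le (fun f hf => h11 f (hJ hf) fun a ha => ha.1.2 f hf)
      (jn_le fun i _ f hf => h11 f (hΛ i hf) fun a ha =>
        h.cz_le (comm_le_iff.1 (hs.JL i) a ha.2 f hf)))
  have h11 : (kz F W).relIndex J ≤ Nat.log 2 (Nat.card W) ^ 2 := by
    refine le_trans (Subgroup.relIndex_le_of_le_left (H := cm J (cz W) ⊓ J) (fun a ha => ?_)
      Subgroup.FiniteIndex.index_ne_zero) ((Subgroup.inf_relIndex_right _ _).le.trans
        ((h2 J hJ (hs.cl.trans h.cz_le)).trans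
          (Nat.pow_le_pow_left (Nat.le_log_of_pow_le one_lt_two hx) 2)))
    refine ⟨hJ ha.2, h.mem_cm le_rfl (h.le_nz (hJ ha.2)) fun f hf => ?_⟩
    have h12 := (cz W).inv_mem ((h10 hf).2 a ha)
    rwa [show (f * a * f⁻¹ * a⁻¹)⁻¹ = a * f * a⁻¹ * f⁻¹ by group] at h12
  have h12 := amb_dim h.abW (hs.eq ▸ h.minI) hs.perf
    (fun i j hij => (hs.comm i j hij).trans h.cz_le) fun i => (hs.JL i).trans h.cz_le
  have h13 : {i | ¬ Λ i ≤ cz W} = {i | ¬ Λ i ≤ ky F W} := by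
    ext i
    exact not_congr ⟨fun e => le_inf (hΛ i) e, fun e => e.trans inf_le_right⟩
  rw [h13] at h12
  exact ⟨_, (hC _ _ _ h11 h12).trans
    (Nat.mul_le_mul_left _ (Nat.pow_log_le_self 2 Nat.card_pos.ne')), h6, h7.trans h9, h9, h8⟩

/-- `¬ ⁅F, F⁆ ≤ cz W` (the normal subgroup `⁅F, F⁆` would lie in all `cz (cj g W)`). Let `q` be as in
`amb_sq`, `S₀ ≤ nz W` as in `amb_gal` and `S₁ = S₀ ⊓ cm F (ky F W)`. Then
`S₀ ≤ cm (kz F W) (ky F W)` (`BD.mem_cm`), so `S₁.relIndex S₀ ≤ γ`. A class meets `W` in at most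
`log₂ (card W) * γ * q` elements (`BD.mem_nz`, `ncard_conj_eq`, `relIndex_le_mul` twice).
`ncard_le_om_mul`, `om_mono`, fourth powers. -/
theorem lin_orb (h : BD V F W) (hn : ¬ ⁅F, F⁆ ≤ cz V) {C γ : ℕ}
    (h1 : (Nat.log 2 (Nat.card W) * γ) ^ 4 ≤ C * Nat.card W)
    (h2 : (cm F (ky F W)).relIndex (cm (kz F W) (ky F W)) ≤ γ) :
    Nat.card W ≤ C * om (V : Set G) ^ 4 := by
  have := h.nF
  have hn' : ¬ ⁅F, F⁆ ≤ cz W := fun e => hn fun x hx => h.fa x fun g =>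
    mem_cz_cj.2 (e (Subgroup.Normal.conj_mem' inferInstance x hx g))
  obtain ⟨q, hq, h3⟩ := amb_sq h.abW h.minI hn'
  obtain ⟨S₀, h4, h5, h6⟩ := amb_gal h.abW h.minI (S := nz W) le_rfl
  have h7 : S₀ ≤ cm (kz F W) (ky F W) := fun a ha => h.mem_cm inf_le_left (h.nz_le (h4 ha))
    fun z hz => h6 a ha z ⟨h.minI.1.le_nz hz.1, fun f hf => (hz.2.2 f hf).2⟩
  have h8 : (cm F (ky F W) ⊓ S₀).relIndex S₀ ≤ γ := by
    rw [Subgroup.inf_relIndex_right]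
    exact (Subgroup.relIndex_le_of_le_right h7 Subgroup.FiniteIndex.index_ne_zero).trans h2
  have h9 := ncard_le_om_mul (W : Set G) (q * γ * Nat.log 2 (Nat.card W)) fun w hw => by
    refine le_trans (Set.ncard_le_ncard (t := {b | ∃ a ∈ nz W, b = a * w * a⁻¹}) ?_) ?_
    · rintro b ⟨hb, hc⟩
      obtain ⟨a, rfl⟩ := isConj_iff.1 hc
      by_cases h10 : w = 1
      · exact ⟨1, Subgroup.one_mem _, by simp [h10]⟩
      · exact ⟨a, h.mem_nz hw h10 hb, rfl⟩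
    · rw [ncard_conj_eq]
      refine (relIndex_le_mul _ h4).trans (Nat.mul_le_mul ((relIndex_le_mul _
        (inf_le_right : cm F (ky F W) ⊓ S₀ ≤ S₀)).trans (Nat.mul_le_mul (h3 _ ?_ w hw) h8)) h5)
      exact fun a ha => ⟨h4 ha.2, fun f hf => (ha.1.2 f hf).2⟩
  have h10 : Nat.card W ≤ om (V : Set G) * (q * γ * Nat.log 2 (Nat.card W)) :=
    le_trans h9 (Nat.mul_le_mul_right _ (om_mono h.le))
  refine Nat.le_of_mul_le_mul_right ?_ (pow_pos (Nat.card_pos (α := W)) 3)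
  calc Nat.card W * Nat.card W ^ 3 = Nat.card W ^ 4 := by ring
    _ ≤ (om (V : Set G) * (q * γ * Nat.log 2 (Nat.card W))) ^ 4 := Nat.pow_le_pow_left h10 4
    _ = om (V : Set G) ^ 4 * ((q ^ 2) ^ 2 * (Nat.log 2 (Nat.card W) * γ) ^ 4) := by ring
    _ ≤ om (V : Set G) ^ 4 * (Nat.card W ^ 2 * (C * Nat.card W)) := by gcongr
    _ = _ := by ring

omit [Finite G] in
/-- Here `kz F W = F`. Otherwise `L = ⁅L, L⁆ ≤ cm F (ky F W)`, so `L ≤ cm F (cz V)`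
(`BD.mem_cm_cz`), `L ≤ F` and `L = ⁅L, L⁆ ≤ cz V`. -/
theorem lin_move (h : BD V F W) (hc : ⁅F, F⁆ ≤ cz V) (hs : E ⊓ cm F (cz V) ≤ F) [L.Normal]
    (hLE : L ≤ E) (hL : ⁅L, L⁆ = L) (ha : ⁅V, L⁆ ≠ ⊥)
    (h1 : ⁅nz (ky F W), nz (ky F W)⁆ ≤ cm (kz F W) (ky F W)) :
    ∃ l ∈ L, cj l (ky F W) ≠ ky F W := by
  by_contra h2
  have h3 : L ≤ nz (ky F W) := fun l hl => mem_nz.2 (not_not.1 fun h4 => h2 ⟨l, hl, h4⟩)
  have h4 : kz F W = F := inf_eq_left.2 fun f hf =>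
    h.mem_cm le_rfl (h.le_nz hf) fun x hx => h.cz_le (comm_le_iff.1 hc f hf x hx)
  rw [h4] at h1
  have h5 : L ≤ cm F (ky F W) := hL.ge.trans ((Subgroup.commutator_mono h3 h3).trans h1)
  have h6 : L ≤ F := fun l hl => hs ⟨hLE hl,
    h.mem_cm_cz fun g => h5 (Subgroup.Normal.conj_mem' inferInstance l hl g)⟩
  rw [Subgroup.commutator_comm] at ha
  exact ha (Subgroup.commutator_eq_bot_iff_le_centralizer.2
    (hL.ge.trans ((Subgroup.commutator_mono h6 h6).trans hc)))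

/-- `amb_gal` for `S = centralizer {w} ≤ nz W` (`BD.mem_nz`). An element `a ∈ S₀` commutes with `F`
modulo `cz W`, so `W ⊓ centralizer {a}` is `F`-invariant; it contains `w`, so it is `W`. -/
theorem tor_fix (h : BD V F W) (hc : ⁅F, F⁆ ≤ cz V) {w u : G} (hw : w ∈ W) (h1 : w ≠ 1)
    (hu : u ∈ W) : {b | ∃ a ∈ Subgroup.centralizer {w}, b = a * u * a⁻¹}.ncard ≤
      Nat.log 2 (Nat.card W) := by
  have := h.nF
  obtain ⟨S₀, h2, h3, h4⟩ := amb_gal h.abW h.minI (S := Subgroup.centralizer {w}) fun a ha =>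
    h.mem_nz hw h1 (by rwa [Subgroup.mem_centralizer_singleton_iff.1 ha, mul_inv_cancel_right])
  rw [ncard_conj_eq]
  refine le_trans (Subgroup.relIndex_le_of_le_left (fun a ha => ?_)
    Subgroup.FiniteIndex.index_ne_zero) h3
  have h5 : Inva (fun _ : Unit => F) (W ⊓ Subgroup.centralizer {a}) := fun _ f hf v hv => by
    have h6 := h.minI.1 () f hf v hv.1
    have h7 : v * a = a * v := Subgroup.mem_centralizer_singleton_iff.1 hv.2
    have h8 := Subgroup.mem_centralizer_iff.1 (h4 a ha f (h.cn hc hf)) _ h6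
    refine ⟨h6, Subgroup.mem_centralizer_singleton_iff.2 ?_⟩
    calc f * v * f⁻¹ * a = f * v * f⁻¹ * (a * f * a⁻¹ * f⁻¹) * (f * a * f⁻¹ * a⁻¹ * a) := by group
      _ = a * f * (a⁻¹ * (v * a)) * f⁻¹ := by rw [h8]; group
      _ = a * (f * v * f⁻¹) := by rw [h7]; group
  have h6 := (h.minI.2.2 _ h5 inf_le_left).resolve_left fun e => h1 (Subgroup.mem_bot.1
    (e ▸ Subgroup.mem_inf.2 ⟨hw, Subgroup.mem_centralizer_singleton_iff.2
      (Subgroup.mem_centralizer_singleton_iff.1 (h2 ha)).symm⟩))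
  exact Subgroup.mem_centralizer_singleton_iff.2
    (Subgroup.mem_centralizer_singleton_iff.1 (inf_eq_left.1 h6 hu)).symm

/-- `amb_gal` for `S = L ⊓ nz W`; the elements of `S₀` satisfy `Cn F W`; `BD.mem_nz`,
`ncard_conj_eq`, `relIndex_le_mul`. -/
theorem tor_orb (h : BD V F W) (hc : ⁅F, F⁆ ≤ cz V) {ζ : ℕ}
    (hζ : ∀ S ≤ L, (∀ z ∈ S, Cn F W z) → (cz W).relIndex S ≤ ζ) {u : G} (hu : u ∈ W)
    (h1 : u ≠ 1) : {b | b ∈ W ∧ ∃ n ∈ L, b = n * u * n⁻¹}.ncard ≤ ζ * Nat.log 2 (Nat.card W) := by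
  have := h.nF
  obtain ⟨S₀, h2, h3, h4⟩ := amb_gal h.abW h.minI (S := L ⊓ nz W) inf_le_right
  refine le_trans (Set.ncard_le_ncard (t := {b | ∃ a ∈ L ⊓ nz W, b = a * u * a⁻¹}) ?_) ?_
  · rintro _ ⟨hb, n, hn, rfl⟩
    exact ⟨n, ⟨hn, h.mem_nz hu h1 hb⟩, rfl⟩
  · rw [ncard_conj_eq]
    refine (relIndex_le_mul _ h2).trans (Nat.mul_le_mul (le_trans
      (Subgroup.relIndex_le_of_le_left (H := cz W) (fun a ha => ?_)
        Subgroup.FiniteIndex.index_ne_zero) (hζ S₀ (h2.trans inf_le_left) fun z hz =>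
          ⟨(h2 hz).2, fun f hf => h4 z hz f (h.cn hc hf)⟩)) h3)
    exact Subgroup.mem_centralizer_singleton_iff.2 (Subgroup.mem_centralizer_iff.1 ha u hu).symm

/-- Fix `w ∈ W`, `w ≠ 1`, and let `v u = w * (l u l⁻¹)` for `u ∈ W`, `u ≠ 1`. Let `T u` be the set of
`b ∈ W` of the form `n (a u a⁻¹) n⁻¹` with `a ∈ centralizer {w}`, `n ∈ L`; it has at most
`X * (ζ * X)` elements (`tor_fix`, `tor_orb`; note `a ∈ nz W`). If `a (v u) a⁻¹ = v u'` then by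
`BD.pair` either `a w a⁻¹ = w` and `u' = n (a u a⁻¹) n⁻¹` with `n = l⁻¹ a l a⁻¹ ∈ L`, or
`a (l u l⁻¹) a⁻¹ = w` and `a w a⁻¹ = l u' l⁻¹`. Two `u', u''` of the second kind, through `a', a''`,
are related by the first kind through `a'' a'⁻¹`... more precisely `a'' a'⁻¹` fixes `w` and maps
`l u' l⁻¹` to `l u'' l⁻¹`, so `u'' ∈ T u'`. Use `ncard_le_om_mul` for the set of all `v u`. -/
theorem lin_tor (h : BD V F W) (hc : ⁅F, F⁆ ≤ cz V) [L.Normal] {l : G} (hl : l ∈ L)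
    (hm : cj l (ky F W) ≠ ky F W) {ζ : ℕ}
    (hζ : ∀ S ≤ L, (∀ z ∈ S, Cn F W z) → (cz W).relIndex S ≤ ζ) :
    Nat.card W ≤ om (V : Set G) *
      (2 * (Nat.log 2 (Nat.card W) * (ζ * Nat.log 2 (Nat.card W)))) + 1 := by
  obtain ⟨w, hw, hw1⟩ := W.bot_or_exists_ne_one.resolve_left h.minI.2.1
  have hne : ∀ {a u : G}, u ≠ 1 → a * u * a⁻¹ ≠ 1 := fun hu e => hu (conj_eq_one_iff.1 e)
  let T : G → Set G := fun u => ⋃ c : {b | ∃ a ∈ Subgroup.centralizer {w}, b = a * u * a⁻¹},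
    {b | b ∈ W ∧ ∃ n ∈ L, b = n * (c : G) * n⁻¹}
  have hT : ∀ u ∈ W, u ≠ 1 →
      (T u).ncard ≤ Nat.log 2 (Nat.card W) * (ζ * Nat.log 2 (Nat.card W)) := fun u hu h1 => by
    refine (moda_iUnion _ _ ?_).trans (Nat.mul_le_mul_right _ (tor_fix h hc hw hw1 hu))
    rintro ⟨_, a, ha, rfl⟩
    refine tor_orb h hc hζ ?_ (hne h1)
    refine (Subgroup.mem_normalizer_iff.1 (h.mem_nz hw hw1 ?_) u).1 hu
    rwa [Subgroup.mem_centralizer_singleton_iff.1 ha, mul_inv_cancel_right]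
  have k1 : ∀ a u u' : G, u' ∈ W → w = a * w * a⁻¹ → l * u' * l⁻¹ = a * (l * u * l⁻¹) * a⁻¹ →
      u' ∈ T u := fun a u u' hu' e1 e2 => by
    refine Set.mem_iUnion.2 ⟨⟨_, a, Subgroup.mem_centralizer_singleton_iff.2
      (eq_mul_inv_iff_mul_eq.1 e1).symm, rfl⟩, hu', l⁻¹ * (a * l * a⁻¹),
      L.mul_mem (L.inv_mem hl) (Subgroup.Normal.conj_mem inferInstance l hl a), ?_⟩
    calc u' = l⁻¹ * (l * u' * l⁻¹) * l := by group
      _ = _ := by rw [e2]; group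
  have hinj : Function.Injective fun u : G => w * (l * u * l⁻¹) := fun a b e => by simpa using e
  have h1 := ncard_le_om_mul ((fun u : G => w * (l * u * l⁻¹)) '' ((W : Set G) \ {1}))
    (2 * (Nat.log 2 (Nat.card W) * (ζ * Nat.log 2 (Nat.card W)))) (by
      rintro _ ⟨u, ⟨hu, hu1⟩, rfl⟩
      let A : Set G := {u' | u' ∈ W ∧ u' ≠ 1 ∧
        ∃ a : G, w = a * (l * u * l⁻¹) * a⁻¹ ∧ l * u' * l⁻¹ = a * w * a⁻¹}
      have h2 : A.ncard ≤ Nat.log 2 (Nat.card W) * (ζ * Nat.log 2 (Nat.card W)) := by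
        rcases A.eq_empty_or_nonempty with e | ⟨u₀, h3, h4, a₀, h5, h6⟩
        · rw [e, Set.ncard_empty]
          exact Nat.zero_le _
        refine le_trans (Set.ncard_le_ncard ?_) (hT u₀ h3 h4)
        rintro u' ⟨h7, -, a, h8, h9⟩
        refine k1 (a * a₀⁻¹) u₀ u' h7 ?_ ?_
        · calc w = a * (l * u * l⁻¹) * a⁻¹ := h8
            _ = a * a₀⁻¹ * (a₀ * (l * u * l⁻¹) * a₀⁻¹) * (a * a₀⁻¹)⁻¹ := by group
            _ = _ := by rw [← h5]
        · rw [h6, h9]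
          group
      refine le_trans (Set.ncard_le_ncard (t := (fun u : G => w * (l * u * l⁻¹)) '' (T u ∪ A)) ?_)
        ((Set.ncard_image_le (Set.toFinite _)).trans ((Set.ncard_union_le _ _).trans
          ((Nat.add_le_add (hT u hu hu1) h2).trans (two_mul _).ge)))
      rintro _ ⟨⟨u', ⟨hu', hu1'⟩, rfl⟩, h3⟩
      obtain ⟨a, ha⟩ := isConj_iff.1 h3
      refine ⟨u', ?_, rfl⟩
      refine (h.pair (g₁ := 1) (g₂ := l) (g₃ := a) (g₄ := a * l) (by rwa [cj_one])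
        (conj_mem_cj l hu') (conj_mem_cj a hw) (x₄ := a * (l * u * l⁻¹) * a⁻¹)
        (by rw [cj_mul]; exact conj_mem_cj a (conj_mem_cj l hu)) hw1 (by rwa [cj_one])
        (fun e => hm (cj_inj a (by rw [← cj_mul, e]))) (ha.symm.trans (by group))).imp
        (fun e => k1 a u u' hu' e.1 e.2) fun e => ⟨hu', hu1', a, e.1, e.2⟩)
  rw [Set.ncard_image_of_injective _ hinj] at h1
  have h2 := Set.ncard_sdiff_singleton_add_one (s := (W : Set G)) W.one_mem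
  refine le_trans h2.ge (Nat.add_le_add_right (h1.trans (Nat.mul_le_mul_right _ (om_mono ?_))) 1)
  rintro _ ⟨u, hu, rfl⟩
  exact V.mul_mem (h.le hw) (h.nV.conj_mem u (h.le hu.1) l)

/-- `amb_cent`. If `a ≤ 2` take `n = (M !) ^ 2`. If `r ≤ M` write `card W = r ^ f`
(`IsPGroup.exists_card_eq`), `f ≤ log₂ (card W)`, and use `num_lte`, `not_dvd_relIndex`,
`PE.mem_of_pow`, `coprime_factorial`. -/
theorem lin_zeta (M : ℕ) : ∃ C : ℕ, ∀ (G : Type) [Group G] [Finite G] (r : ℕ)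
    (V F W L : Subgroup G), r.Prime → IsPGroup r V → BD V F W → ZH M r (cz V) L →
    ∀ S ≤ L, (∀ z ∈ S, Cn F W z) → (cz W).relIndex S ≤ C * Nat.log 2 (Nat.card W) := by
  obtain ⟨C, hC⟩ := lte M
  refine ⟨C + M.factorial ^ 2, fun G _ _ r V F W L hr hV h ⟨a, ha, hz⟩ S hS hc => ?_⟩
  obtain ⟨h1, h2⟩ := amb_cent h.abW h.minI hc
  have h3 : 1 ≤ Nat.log 2 (Nat.card W) := Nat.le_log_of_pow_le one_lt_two h.two_le
  rw [add_mul]
  rcases ha with ha | ha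
  · refine le_trans ?_ (Nat.le_add_left _ _)
    exact (h2 _ (pow_ne_zero a M.factorial_ne_zero) fun z hz' => h.cz_le (hz z (hS hz'))).trans
      ((Nat.pow_le_pow_right M.factorial_pos ha).trans (Nat.le_mul_of_pos_right _ h3))
  · have := Fact.mk hr
    obtain ⟨f, hf⟩ := (hV.to_le h.le).exists_card_eq
    have h4 : 0 < f := Nat.pos_of_ne_zero fun e => by
      have h5 := h.two_le
      rw [hf, e, pow_zero] at h5
      omega
    refine le_trans ((hC r f _ hr ha h4 (hf ▸ h1) fun s hs h5 => ?_).trans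
      (Nat.mul_le_mul_left _ (Nat.le_log_of_pow_le one_lt_two ?_))) (Nat.le_add_right _ _)
    · by_contra h6
      exact not_dvd_relIndex hs (fun x hx hp => hp.mem_of_pow
        (Nat.Coprime.pow_left a (coprime_factorial hs (not_le.1 h6))) (h.cz_le (hz x (hS hx)))) h5
    · rw [hf]
      exact Nat.pow_le_pow_left hr.two_le f

/-- Let `Y = ky F W`, `Q = cm F Y`, `m = (nz Y).index < om V` (`BD.index_lt`). Order: the group
`B = E ⊓ ⨅ g, cj g Q` is normal and lies in `F ⊓ Q` (`BD.mem_cm_cz`); `core_idx` for `Q` with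
`S = nz Y` (`cj_cm`) and for `Y`; `⨅ g, cj g Y ≤ cz V`; `Q.relIndex E ≤ Q.index ≤ T * m`
(`Subgroup.relIndex_mul_index`). -/
theorem lin_ord (h : BD V F W) [E.Normal] (hs : E ⊓ cm F (cz V) ≤ F) {T : ℕ}
    (h1 : (cm F (ky F W)).relIndex (nz (ky F W)) ≤ T) (h2 : (ky F W).relIndex (kz F W) ≤ T) :
    (cz V).relIndex E ≤ (T * (T * om (V : Set G))) ^ om (V : Set G) := by
  have h3 := h.index_lt.le
  have : (⨅ g : G, cj g (cm F (ky F W))).Normal := normal_of_cj fun a => le_iInf fun g =>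
    (cj_mono a (iInf_le _ (a⁻¹ * g))).trans (by rw [← cj_mul, mul_inv_cancel_left])
  have h4 : E ⊓ ⨅ g : G, cj g (cm F (ky F W)) ≤ kz F W := fun x hx =>
    ⟨hs ⟨hx.1, h.mem_cm_cz fun g => mem_cj.1 (Subgroup.mem_iInf.1 hx.2 g)⟩,
      cj_one (cm F (ky F W)) ▸ Subgroup.mem_iInf.1 hx.2 1⟩
  have h5 : (cz V).relIndex (E ⊓ ⨅ g : G, cj g (cm F (ky F W))) ≤ T ^ (nz (ky F W)).index := by
    refine (Subgroup.relIndex_le_of_le_left (H := ⨅ g : G, cj g (ky F W))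
      (fun x hx => h.fa x fun g => ?_) Subgroup.FiniteIndex.index_ne_zero).trans
      ((core_idx le_rfl _).trans (Nat.pow_le_pow_left ((Subgroup.relIndex_le_of_le_right h4
        Subgroup.FiniteIndex.index_ne_zero).trans h2) _))
    exact (h.cj_ky g ▸ Subgroup.mem_iInf.1 hx g).2
  have h6 : (E ⊓ ⨅ g : G, cj g (cm F (ky F W))).relIndex E ≤
      (T * om (V : Set G)) ^ (nz (ky F W)).index := by
    rw [Subgroup.inf_relIndex_left]
    refine (core_idx h.nz_cm E).trans (Nat.pow_le_pow_left ?_ _)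
    refine (Subgroup.relIndex_le_of_le_right le_top Subgroup.FiniteIndex.index_ne_zero).trans ?_
    rw [Subgroup.relIndex_top_right, ← Subgroup.relIndex_mul_index (cm_le_nz F (ky F W))]
    exact Nat.mul_le_mul h1 h3
  have h7 : 0 < T := lt_of_lt_of_le (Nat.pos_of_ne_zero Subgroup.FiniteIndex.index_ne_zero) h2
  have h8 : 0 < om (V : Set G) := om_pos ⟨1, V.one_mem⟩
  refine (relIndex_le_mul _ inf_le_left).trans ((Nat.mul_le_mul h5 h6).trans ?_)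
  rw [← mul_pow]
  exact Nat.pow_le_pow_right (by positivity) h3

omit [Finite G] in
/-- Let `e₁`, `e₂` be the two relative indices. For `x ∈ E` one has `x ^ e₀ ∈ nz Y`, so
`x ^ (e₀ e₁) ∈ Q` (`Subgroup.pow_index_mem` for `Q.subgroupOf (nz Y)`, which is normal). Apply this
to all conjugates of `g`; `BD.mem_cm_cz`; then the conjugates of `g ^ (e₀ e₁)` lie in `kz F W`, and
their `e₂`-th powers lie in `Y`; `BD.fa`. -/
theorem lin_exp (h : BD V F W) [E.Normal] (hs : E ⊓ cm F (cz V) ≤ F) {e₀ : ℕ}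
    (h0 : ∀ x ∈ E, x ^ e₀ ∈ nz (ky F W)) {g : G} (hg : g ∈ E) :
    g ^ (e₀ * (cm F (ky F W)).relIndex (nz (ky F W)) * (ky F W).relIndex (kz F W)) ∈ cz V := by
  have hcp : ∀ (a x : G) (n : ℕ), a⁻¹ * x ^ n * a = (a⁻¹ * x * a) ^ n := fun a x n => by
    simpa using (conj_pow (a := a⁻¹) (b := x) (i := n)).symm
  have h1 : ∀ a : G, a⁻¹ * g ^ (e₀ * (cm F (ky F W)).relIndex (nz (ky F W))) * a ∈
      cm F (ky F W) := fun a => by
    rw [hcp, pow_mul]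
    exact pow_relIndex_mem_nz h.nz_cm (h0 _ (Subgroup.Normal.conj_mem' inferInstance g hg a))
  have h2 := hs ⟨E.pow_mem hg _, h.mem_cm_cz h1⟩
  refine h.fa _ fun a => mem_cz_cj.2 ?_
  rw [pow_mul, hcp]
  exact (pow_relIndex_mem_nz (inf_le_left.trans h.le_nz)
    (show _ ∈ kz F W from ⟨h.nF.conj_mem' _ h2 a, h1 a⟩)).2

/-- `lin_loc`, `lin_orb` or `lin_move`, `lin_zeta`, `lin_tor`, `num_poly`. -/
theorem lin_card (M : ℕ) : ∃ C : ℕ, ∀ (G : Type) [Group G] [Finite G] (ι : Type) [Finite ι]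
    (r : ℕ) (V E F J W L : Subgroup G) (Λ : ι → Subgroup G), r.Prime → IsPGroup r V → BD V F W →
    FS M (cz V) E F J Λ → L.Normal → L ≤ E → ⁅L, L⁆ = L → ⁅V, L⁆ ≠ ⊥ → ZH M r (cz V) L →
    Nat.card W ≤ C * om (V : Set G) ^ 4 := by
  obtain ⟨C₁, h₁⟩ := lin_loc M
  obtain ⟨C₂, h₂⟩ := lin_zeta M
  obtain ⟨C₃, -, h₃⟩ := num_poly ((4 * C₂) ^ 2) 6
  refine ⟨C₁ + C₃, fun G _ _ ι _ r V E F J W L Λ hr hV h hs hL hLE hp ha hz => ?_⟩
  obtain ⟨γ, h1, h2, -, -, h3⟩ := h₁ G ι V E F J W Λ h hs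
  by_cases hc : ⁅F, F⁆ ≤ cz V
  · obtain ⟨l, hl, hm⟩ := lin_move h hc hs.self hLE hp ha h3
    have h4 := lin_tor h hc hl hm (h₂ G r V F W L hr hV h hz)
    have h5 := h.two_le
    have h6 := (h₃ (Nat.log 2 (Nat.card W))).trans
      (Nat.mul_le_mul_left _ (Nat.pow_log_le_self 2 (Nat.card_pos (α := W)).ne'))
    have h7 : 0 < om (V : Set G) := om_pos ⟨1, V.one_mem⟩
    generalize Nat.log 2 (Nat.card W) = X at h4 h6
    have h8 : Nat.card W ≤ om (V : Set G) * (4 * C₂ * X ^ 3) := by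
      rw [show om (V : Set G) * (4 * C₂ * X ^ 3) =
        2 * (om (V : Set G) * (2 * (X * (C₂ * X * X)))) by ring]
      omega
    refine le_trans (Nat.le_of_mul_le_mul_right ?_ (Nat.card_pos (α := W)))
      (Nat.mul_le_mul (Nat.le_add_left C₃ C₁) (Nat.pow_le_pow_right h7 (by norm_num : 2 ≤ 4)))
    calc Nat.card W * Nat.card W ≤ (om (V : Set G) * (4 * C₂ * X ^ 3)) *
          (om (V : Set G) * (4 * C₂ * X ^ 3)) := Nat.mul_le_mul h8 h8
      _ = om (V : Set G) ^ 2 * ((4 * C₂) ^ 2 * X ^ 6) := by ring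
      _ ≤ om (V : Set G) ^ 2 * (C₃ * Nat.card W) := Nat.mul_le_mul_left _ h6
      _ = _ := by ring
  · exact (lin_orb h hc h1 h2).trans (Nat.mul_le_mul_right _ (Nat.le_add_right _ _))

/-- `exists_fs`, `exists_bd`, `lin_card`, `lin_loc`, `lin_ord`, `lin_exp`, `exp_all` in `↥E` for
`(nz Y).subgroupOf E`, `two_le_om`, `num_abs`. -/
theorem lin_main (M : ℕ) : ∃ c : ℕ, ∀ (G : Type) [Group G] [Finite G] (r : ℕ)
    (V E L : Subgroup G), r.Prime → IsPGroup r V → MinNor V → E.Normal → Sm M E → L.Normal →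
    L ≤ E → ⁅L, L⁆ = L → ⁅V, L⁆ ≠ ⊥ → ZH M r (cz V) L →
    r ≤ om (V : Set G) ^ c ∧ (cz V).relIndex E ≤ 2 ^ om (V : Set G) ^ c ∧
      ∃ e : ℕ, e ≠ 0 ∧ e ≤ om (V : Set G) ^ c ∧ ∀ g ∈ E, g ^ e ∈ cz V := by
  obtain ⟨C₁, h₁⟩ := lin_loc M
  obtain ⟨C₂, h₂⟩ := lin_card M
  obtain ⟨c, h₃⟩ := exp_all M
  obtain ⟨b, hb⟩ : ∃ b, b = C₁ + (C₂ + 4) + (C₂ + 4) := ⟨_, rfl⟩
  refine ⟨c + 2 * b + 3, fun G _ _ r V E L hr hV hmin hE hS hL hLE hp ha hz => ?_⟩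
  have := hmin.1
  obtain ⟨ι, _, F, J, Λ, hs⟩ := exists_fs (cz V) E hS
  have := hs.nF
  obtain ⟨W, h⟩ := exists_bd hmin (hmin.comm_pgroup hr hV hV) F
  obtain ⟨γ, h1, h2, h3, h4, -⟩ := h₁ G ι V E F J W Λ h hs
  have h5 := two_le_om hmin.2.1
  have h6 := (h₂ G ι r V E F J W L Λ hr hV h hs hL hLE hp ha hz).trans (num_abs h5 _ _)
  have h7 := h.index_lt.le
  obtain ⟨e, h8, h9, h10⟩ := h₃ E ((nz (ky F W)).subgroupOf E) hS
  have h11 : 1 ≤ Nat.log 2 (Nat.card W) := Nat.le_log_of_pow_le one_lt_two h.two_le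
  have hmono : ∀ {i j : ℕ}, i ≤ j → om (V : Set G) ^ i ≤ om (V : Set G) ^ j :=
    fun hij => Nat.pow_le_pow_right (by omega) hij
  have h12 : γ ≤ om (V : Set G) ^ (C₁ + (C₂ + 4)) :=
    ((Nat.le_mul_of_pos_left γ h11).trans ((Nat.le_self_pow (by norm_num) _).trans h1)).trans
      ((Nat.mul_le_mul_left _ h6).trans (num_abs h5 _ _))
  have h13 : (cm F (ky F W)).relIndex (nz (ky F W)) ≤ om (V : Set G) ^ b := by
    rw [hb, pow_add]
    exact (relIndex_le_mul _ (cm_le_nz _ _)).trans (Nat.mul_le_mul (h2.trans h12) (h3.trans h6))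
  have h14 : (ky F W).relIndex (kz F W) ≤ om (V : Set G) ^ b :=
    (h4.trans h6).trans (hmono (by omega))
  refine ⟨le_trans ?_ (h6.trans (hmono (by omega))), (lin_ord h hs.self h13 h14).trans ?_,
    _, mul_ne_zero (mul_ne_zero h8 Subgroup.FiniteIndex.index_ne_zero)
      Subgroup.FiniteIndex.index_ne_zero, ?_,
    fun g hg => lin_exp h hs.self (fun x hx => h10 ⟨x, hx⟩) hg⟩
  · have := Fact.mk hr
    obtain ⟨f, hf⟩ := (hV.to_le h.le).exists_card_eq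
    rw [hf]
    refine Nat.le_self_pow (fun e => ?_) r
    have h15 := h.two_le
    rw [hf, e, pow_zero] at h15
    omega
  · generalize om (V : Set G) = κ at h5 hmono
    calc (κ ^ b * (κ ^ b * κ)) ^ κ = κ ^ ((2 * b + 1) * κ) := by ring
      _ ≤ (2 ^ κ) ^ ((2 * b + 1) * κ) := Nat.pow_le_pow_left Nat.lt_two_pow_self.le _
      _ = 2 ^ ((2 * b + 1) * κ ^ 2) := by ring
      _ ≤ _ := Nat.pow_le_pow_right two_pos ((num_abs h5 _ _).trans (hmono (by omega)))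
  · have h15 : e ≤ om (V : Set G) ^ c := h9.trans (Nat.pow_le_pow_left (le_trans
      (Subgroup.relIndex_le_of_le_right le_top Subgroup.FiniteIndex.index_ne_zero)
      ((Subgroup.relIndex_top_right _).le.trans h7)) c)
    refine (Nat.mul_le_mul (Nat.mul_le_mul h15 h13) h14).trans ?_
    rw [← pow_add, ← pow_add]
    exact hmono (by omega)

end Pool.Agent.Lib.MP_634dc6_al
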