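import Pool.Agent.Lib.MP_634dc6_al.LinB

/-!
A self-centralising normal subgroup with a transparent structure, modulo `C`.
-/

namespace Pool.Agent.Lib.MP_634dc6_al

variable {G : Type} [Group G] [Finite G]

/-- Modulo `C` the group `F` is the central product of a group `J` of class two and of small
perfect groups, and it contains its centraliser in `E`. -/
structure FS {ι : Type} (M : ℕ) (C E F J : Subgroup G) (Λ : ι → Subgroup G) : Prop where
  nF : F.Normal
  nJ : J.Normal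
  eq : F = J ⊔ jn Λ Set.univ
  self : E ⊓ cm F C ≤ F
  cl : ⁅⁅J, J⁆, F⁆ ≤ C
  JL : ∀ i, ⁅J, Λ i⁆ ≤ C
  perf : ∀ i, ⁅Λ i, Λ i⁆ = Λ i
  comm : ∀ i j, i ≠ j → ⁅Λ i, Λ j⁆ ≤ C
  idx : ∀ i, (cm F C).relIndex (Λ i) ≤ M
  perm : ∀ g : G, ∃ π : Equiv.Perm ι, ∀ i, cj g (Λ i) = Λ (π i)

/-- As `Comp.card_le`; `Sm.of_injective` for the inclusion of `S` in `L`. -/
theorem Comp.card_le_of_sm {M : ℕ} {L S : Subgroup G} (hL : Sm M L) (h : Comp L S) :
    Nat.card S ≤ M := by
  have hS := h.perf.2.2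
  obtain ⟨N, hN, -, ha, hm⟩ := h
  obtain ⟨a, ha', b, hb, hab⟩ := hm.na hN ha
  exact (hL.of_injective _ (Subgroup.inclusion_injective hS)) ⊤ S (⊤ : Subgroup S).subtype
    (fun x => ⟨⟨x, trivial⟩, rfl⟩) (hm.isSimpleGroup hN)
    ⟨⟨a, ha'⟩, ⟨b, hb⟩, fun h0 => hab (congrArg Subtype.val h0)⟩

/-- The lifted components. -/
def lc (B H : Subgroup G) [B.Normal] (S : {S // Comp (H.map (QuotientGroup.mk' B)) S}) :
    Subgroup G := res (S.1.comap (QuotientGroup.mk' B))

/-- The preimage of the join of the commutative minimal normal subgroups. -/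
def lj (B H : Subgroup G) [B.Normal] : Subgroup G :=
  (jn id {N : Subgroup (G ⧸ B) | MinNor N ∧ N ≤ H.map (QuotientGroup.mk' B) ∧ ¬ NA N}).comap
    (QuotientGroup.mk' B)

variable {B H : Subgroup G} [B.Normal]

omit [Finite G] in
/-- `linb_jn_normal`, `linb_le_comap`, `linb_comap`, and the proof of `hEE` in `exp_lin`. -/
theorem lj_spec (hBH : B ≤ H) :
    (lj B H).Normal ∧ B ≤ lj B H ∧ lj B H ≤ H ∧ ⁅lj B H, lj B H⁆ ≤ B := by
  refine ⟨(linb_jn_normal fun N hN => hN.1).comap _, linb_le_comap _,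
    linb_comap hBH (jn_le fun N hN => hN.2.1), ?_⟩
  rw [← map_mk_eq_bot, Subgroup.map_commutator, lj, linb_map_comap, ← le_bot_iff]
  refine comm_jn_le fun N hN => ?_
  rw [Subgroup.commutator_comm]
  refine comm_jn_le fun N' hN' => ?_
  by_cases e : N = N'
  · subst e
    exact (not_NA_iff.1 hN.2.2).le
  · exact (hN.1.comm_of_ne hN'.1 e).le

/-- `res_cover` as in `LinS.two_pow_comp_le`; `Comp.comm_of_ne`; a component lies in a
noncommutative minimal normal subgroup, which commutes with the commutative ones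
(`MinNor.comm_of_ne`). -/
theorem lc_spec (hBH : B ≤ H) (S : {S // Comp (H.map (QuotientGroup.mk' B)) S}) :
    lc B H S ≤ H ∧ S.1.comap (QuotientGroup.mk' B) ≤ lc B H S ⊔ B ∧
      B.relIndex (lc B H S) ≤ Nat.card S.1 ∧ ⁅lj B H, lc B H S⁆ ≤ B ∧
      ∀ S', S ≠ S' → ⁅lc B H S, lc B H S'⁆ ≤ B := by
  have hmap : ∀ S, (lc B H S).map (QuotientGroup.mk' B) ≤ S.1 := fun S =>
    (Subgroup.map_mono (res_le _)).trans (linb_map_comap S.1).le
  refine ⟨(res_le _).trans (linb_comap hBH (Comp.perf S.2).2.2), res_cover ?_ le_sup_left, ?_, ?_,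
    fun S' hne => ?_⟩
  · rw [perf_le_sup, Subgroup.map_commutator, linb_map_comap, (Comp.perf S.2).1]
  · have h1 := Subgroup.relIndex_ker (lc B H S) (QuotientGroup.mk' B)
    rw [QuotientGroup.ker_mk'] at h1
    rw [h1]
    exact Subgroup.card_le_of_le (hmap S)
  · obtain ⟨N, hN, -, ha, hm⟩ := S.2
    rw [← map_mk_eq_bot, Subgroup.map_commutator, lj, linb_map_comap, ← le_bot_iff,
      Subgroup.commutator_comm]
    exact comm_jn_le fun N' hN' => (Subgroup.commutator_mono ((hmap S).trans hm.1) le_rfl).trans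
      (hN.comm_of_ne hN'.1 fun e => hN'.2.2 (e ▸ ha)).le
  · rw [← map_mk_eq_bot, Subgroup.map_commutator, ← le_bot_iff]
    exact (Subgroup.commutator_mono (hmap S) (hmap S')).trans
      (Comp.comm_of_ne S.2 S'.2 fun e => hne (Subtype.ext e)).le

/-- `Comp.cj`, `cj_res`, `cj_inj`; compare `Rad.perm_kf`. -/
theorem lc_perm [H.Normal] (g : G) :
    ∃ π : Equiv.Perm {S // Comp (H.map (QuotientGroup.mk' B)) S},
      ∀ S, cj g (lc B H S) = lc B H (π S) := by
  have : (H.map (QuotientGroup.mk' B)).Normal :=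
    Subgroup.Normal.map inferInstance _ (QuotientGroup.mk'_surjective B)
  let f : {S // Comp (H.map (QuotientGroup.mk' B)) S} →
      {S // Comp (H.map (QuotientGroup.mk' B)) S} :=
    fun S => ⟨cj (QuotientGroup.mk' B g) S.1, S.2.cj _⟩
  have hf : Function.Injective f := fun S T e => Subtype.ext (cj_inj _ (congrArg Subtype.val e))
  refine ⟨Equiv.ofBijective f hf.bijective_of_finite, fun S => ?_⟩
  rw [lc, lc, cj_res]
  congr 1
  ext x
  show _ ↔ QuotientGroup.mk' B x ∈ cj (QuotientGroup.mk' B g) S.1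
  rw [mem_cj, mem_cj, Subgroup.mem_comap, map_mul, map_mul, map_inv]

/-- `MinNor.le_jn_minIn` in the noncommutative case. -/
theorem comap_le_lj_lc (hBH : B ≤ H) {N : Subgroup (G ⧸ B)} (hN : MinNor N)
    (h : N ≤ H.map (QuotientGroup.mk' B)) :
    N.comap (QuotientGroup.mk' B) ≤ lj B H ⊔ jn (lc B H) Set.univ := by
  by_cases ha : NA N
  · refine linb_comap ((lj_spec hBH).2.1.trans le_sup_left)
      (hN.le_jn_minIn.le.trans (jn_le fun S hS => ?_))
    have h1 := (lc_spec hBH ⟨S, N, hN, h, ha, hS⟩).2.1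
    exact (linb_map_comap S).ge.trans ((perf_le_sup.1 h1).trans (Subgroup.map_mono
      ((le_jn (Λ := lc B H) (Set.mem_univ _)).trans le_sup_right)))
  · exact le_trans (Subgroup.comap_mono (le_jn (Λ := id) (J := {N : Subgroup (G ⧸ B) |
      MinNor N ∧ N ≤ H.map (QuotientGroup.mk' B) ∧ ¬ NA N}) ⟨hN, h, ha⟩)) le_sup_left

/-- Let `B` be maximal among the normal subgroups with `C ≤ B ≤ E ⊔ C` and `⁅B, B⁆ ≤ C`, and
`H = (E ⊔ C) ⊓ cm B C`. Take `J = lj B H`, `Λ = lc B H`. As `⁅B, H⁆ ≤ C`, `perf_comm` turns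
commutators in `B` into commutators in `C`. For `self` argue as in `LinS.pow_mem` with
`Y = (E ⊔ C) ⊓ cm F C`. The image of `H` in `G ⧸ B` lies in the image of `E`
(`Sm.of_surjective`, `Sm.of_injective`). -/
theorem exists_fs {M : ℕ} (C E : Subgroup G) [C.Normal] [E.Normal] (hE : Sm M E) :
    ∃ (ι : Type) (_ : Finite ι) (F J : Subgroup G) (Λ : ι → Subgroup G), FS M C E F J Λ := by
  obtain ⟨B, hB, hmax⟩ := (wellFounded_gt (α := Subgroup G)).has_min
    {A : Subgroup G | A.Normal ∧ C ≤ A ∧ A ≤ E ⊔ C ∧ ⁅A, A⁆ ≤ C}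
    ⟨C, inferInstance, le_rfl, le_sup_right, Subgroup.commutator_le_left _ _⟩
  have := hB.1
  obtain ⟨H, hH⟩ : ∃ H, H = (E ⊔ C) ⊓ cm B C := ⟨_, rfl⟩
  have : H.Normal := hH ▸ inferInstance
  have hBH : B ≤ H := hH ▸ le_inf hB.2.2.1 (le_cm.2 hB.2.2.2)
  have hc : ⁅B, H⁆ ≤ C := by
    rw [Subgroup.commutator_comm, ← le_cm, hH]
    exact inf_le_right
  obtain ⟨hJ, hBJ, hJH, hJJ⟩ := lj_spec hBH
  have hn : (jn (lc B H) Set.univ).Normal := jn_normal (invS_univ lc_perm)
  have hFH : lj B H ⊔ jn (lc B H) Set.univ ≤ H :=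
    sup_le hJH (jn_le fun S _ => (lc_spec hBH S).1)
  have hBF : B ≤ cm (lj B H ⊔ jn (lc B H) Set.univ) C :=
    le_cm.2 ((Subgroup.commutator_mono le_rfl hFH).trans hc)
  have hSm : Sm M (H.map (QuotientGroup.mk' B)) :=
    (hE.of_surjective _ ((QuotientGroup.mk' B).subgroupMap_surjective E)).of_injective _
      (Subgroup.inclusion_injective (perf_le_sup.1
        (hH.le.trans (inf_le_left.trans (sup_le_sup_left hB.2.1 E)))))
  refine ⟨_, inferInstance, _, lj B H, lc B H, inferInstance, hJ, rfl, ?_,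
    (Subgroup.commutator_mono hJJ hFH).trans hc, fun S => perf_comm (res_perf _)
      ((Subgroup.commutator_mono (lc_spec hBH S).2.2.2.1 (lc_spec hBH S).1).trans hc),
    fun S => res_perf _, fun S S' hne => perf_comm (res_perf _)
      ((Subgroup.commutator_mono ((lc_spec hBH S).2.2.2.2 S' hne) (lc_spec hBH S').1).trans hc),
    fun S => (Subgroup.relIndex_le_of_le_left hBF Subgroup.FiniteIndex.index_ne_zero).trans
      ((lc_spec hBH S).2.2.1.trans (S.2.card_le_of_sm hSm)), lc_perm⟩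
  refine le_trans (inf_le_inf_right _ (le_sup_left (b := C))) (le_trans ?_ (hBJ.trans le_sup_left))
  by_contra hne
  rw [← map_mk_eq_bot] at hne
  have : (((E ⊔ C) ⊓ cm (lj B H ⊔ jn (lc B H) Set.univ) C).map (QuotientGroup.mk' B)).Normal :=
    Subgroup.Normal.map inferInstance _ (QuotientGroup.mk'_surjective B)
  obtain ⟨N, hN1, hN2⟩ := exists_minNor hne
  have := hN2.1
  have h1 := linb_comap (le_inf hB.2.2.1 hBF) hN1
  have h2 : (E ⊔ C) ⊓ cm (lj B H ⊔ jn (lc B H) Set.univ) C ≤ H := by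
    refine le_trans (inf_le_inf_left _ (le_cm.2 ?_)) hH.ge
    exact (Subgroup.commutator_mono le_rfl (hBJ.trans le_sup_left)).trans (le_cm.1 le_rfl)
  have h3 := comap_le_lj_lc hBH hN2 (hN1.trans (Subgroup.map_mono h2))
  have h4 := (linb_le_comap N).eq_of_not_lt (hmax _ ⟨inferInstance, hB.2.1.trans (linb_le_comap N),
    h1.trans inf_le_left,
    (Subgroup.commutator_mono (h1.trans inf_le_right) h3).trans (le_cm.1 le_rfl)⟩)
  refine hN2.2.1 ?_
  rw [← linb_map_comap N, map_mk_eq_bot, ← h4]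

end Pool.Agent.Lib.MP_634dc6_al
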